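import Mathlib

/-!
# PROJECT TH (helper45): sharp thresholds for local Euler factors

Statements of the modules, with proofs in the docstrings. `G` is a group, `U` a normal subgroup of
finite index, `ρ` a representation of `G`, `ψ` a character of `U` (the value of the function
`ψ : G → F` outside of `U` does not matter), invariant under conjugation by `G`. The twisted
operators are `ψ u • ρ u`, `u ∈ U`.
-/

set_option autoImplicit false

namespace Pool.Agent.D0H45.TH

open Module Filter Topology MeasureTheory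

/-- `ψ` is a character of `U` which is invariant under conjugation by `G` -/
structure Tw {F G : Type} [Field F] [Group G] (ψ : G → F) (U : Subgroup G) : Prop where
  one : ψ 1 = 1
  mul : ∀ u ∈ U, ∀ v ∈ U, ψ (u * v) = ψ u * ψ v
  conj : ∀ u ∈ U, ∀ g, ψ (g * u * g⁻¹) = ψ u
  ne : ∀ u ∈ U, ψ u ≠ 0

/-- connectedness: a linear function of `ψ u • ρ u` with finitely many values on some subgroup of
the family `𝓤` is constant on `U`. The family contains `U` and consists of subgroups of `U`. -/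
structure Conn {F V G : Type} [Field F] [AddCommGroup V] [Module F V] [Group G]
    (ρ : G →* Module.End F V) (ψ : G → F) (U : Subgroup G) (𝓤 : Set (Subgroup G)) : Prop where
  mem : U ∈ 𝓤
  le : ∀ U' ∈ 𝓤, U' ≤ U
  const : ∀ U' ∈ 𝓤, ∀ L : Module.End F V →ₗ[F] F, {x : F | ∃ u ∈ U', x = L (ψ u • ρ u)}.Finite →
    ∀ u ∈ U, L (ψ u • ρ u) = L 1

/-- matrices as operators -/
noncomputable def toEnd {F G : Type} [Field F] [Group G] {n : ℕ}
    (r : G →* Matrix (Fin n) (Fin n) F) : G →* Module.End F (Fin n → F) :=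
  ((Matrix.toLinAlgEquiv' : Matrix (Fin n) (Fin n) F ≃ₐ[F] _) :
    Matrix (Fin n) (Fin n) F →* Module.End F (Fin n → F)).comp r

/-- **1 BURN** (Burnside and Schur). Proof: `R = Algebra.adjoin F (range ρ)`, `V` is a simple
`R`-module (or zero), `End_R V = F` (Schur, `F` algebraically closed; Mathlib
`RingTheory/SimpleModule/IsAlgClosed`) gives the first claim; Jacobson density (Mathlib
`Module.Finite.toModuleEnd_moduleEnd_surjective`) gives `R = End_F V = span (range ρ)`, and the trace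
form of `End_F V` is nondegenerate (take `Z * (rank one maps)`). -/
def S_BURN : Prop :=
  ∀ (F V G : Type) [Field F] [IsAlgClosed F] [AddCommGroup V] [Module F V] [Module.Finite F V]
    [Group G] (ρ : G →* Module.End F V),
    (∀ W : Submodule F V, (∀ g, ∀ x ∈ W, ρ g x ∈ W) → W = ⊥ ∨ W = ⊤) →
    (∀ Z : Module.End F V, (∀ g, Z * ρ g = ρ g * Z) → ∃ c : F, Z = c • (1 : Module.End F V)) ∧
    ∀ Z : Module.End F V, (∀ g, LinearMap.trace F V (Z * ρ g) = 0) → Z = 0

/-- **2 UNI** A normal subgroup which acts unipotently (after the twist by `ψ`) does not change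
traces. Proof: strong induction on `finrank F V`, for all representations `V` of `G`. If `V = 0`
trivial. Let `V^U = {x | ∀ u ∈ U, ψ u • ρ u x = x}`. It is not zero: take a minimal nonzero
subspace `W` which is stable under all `ρ u`, `u ∈ U`; by BURN for `W` (the group is `U`, the
representation `u ↦ ψ u • ρ u` on `W`): `ψ u • ρ u` has trace `dim W` on `W` (it is unipotent), so
`trace ((ψ u • ρ u - 1) * (ψ v • ρ v)) = 0` for all `v ∈ U`, so `ψ u • ρ u = 1` on `W`. `V^U` is stable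
under `G` (`U` is normal and `ψ` invariant). If `V^U = ⊤` we are done. Otherwise the trace is the sum
of the traces on `V^U`, where the claim is clear, and on `V ⧸ V^U`, by induction. -/
def S_UNI : Prop :=
  ∀ (F V G : Type) [Field F] [IsAlgClosed F] [CharZero F] [AddCommGroup V] [Module F V]
    [Module.Finite F V] [Group G] (ρ : G →* Module.End F V) (U : Subgroup G) (ψ : G → F),
    U.Normal → Tw ψ U → (∀ u ∈ U, IsNilpotent (ψ u • ρ u - 1)) →
    ∀ y, ∀ u ∈ U, LinearMap.trace F V (ρ y * (ψ u • ρ u)) = LinearMap.trace F V (ρ y)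

/-- **3 ALGA** Proof. Let `D = span {ψ u • ρ u - 1 | u ∈ U}`; it is closed under multiplication
(`(a-1)(b-1) = (ab-1)-(a-1)-(b-1)`) and `D * (ψ u • ρ u) ⊆ D`, `ρ g D = D ρ g`.

(i) If `g` is not in `Bad`, then `trace (ρ g * d) = 0` for all `d ∈ D`: take `y`, `U'`; by `Conn`
with `L x = trace (ρ y * x)`, `trace (ρ y * d) = 0` for `d ∈ D`, and `g = y * v`, `v ∈ U`,
`ρ g * d = ρ y * (ρ v * d)`, `ρ v * d = (ψ v)⁻¹ • (ψ v • ρ v) * d ∈ D` (use
`a (b - 1) = (a b - 1) - (a - 1)`).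

(ii) There is no `e ∈ D` with `trace e ≠ 0` and `2 * finrank (range e) ≤ n`. Suppose there is. Let
`𝓛 = span {ρ x * e | x ∈ G}`; all its elements vanish on `ker e`, so `dim 𝓛 ≤ rank e * n` and there
are `M ≤ rank e * n` elements `x_i` such that the `ρ x_i * e` span `𝓛`
(`Submodule.exists_fun_fin_finrank_span_eq`). For every `g` there is an `i` with `g x_i` in `Bad`:
otherwise `trace (ρ g * ρ x_i * e) = 0` for all `i` by (i), so `trace (ρ g * z) = 0` for all `z ∈ 𝓛`,
in particular for `z = ρ g⁻¹ * e`: `trace e = 0`. So `G ⧸ U` is the union of `M` translates of `Bad`: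
`card ≤ M * Bad.ncard ≤ (n ^ 2 / 2) * Bad.ncard`, contradiction.

(iii) Let `x ∈ D`, and let `λ ≠ μ` be two different nonzero eigenvalues of `x`. The generalised
eigenspaces have dimensions `m_λ + m_μ ≤ n`, say `2 m_λ ≤ n`. Let `q = T * ∏_{ν ≠ λ} (T - ν) ^ n`,
`ν` over the other eigenvalues; `e = q(x) ∈ D` (no constant term), it kills the generalised
eigenspaces for `ν ≠ λ`, so `rank e ≤ m_λ`, and `trace e = m_λ q(λ) ≠ 0`. Contradiction to (ii). So
`x` has at most one nonzero eigenvalue `λ`, of multiplicity `m`, and the trace of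
`x ^ j` is `m λ ^ j`.

(iv) For `u ∈ U` apply (iii) to `x = ψ u • ρ u - 1`: the eigenvalues of `a = ψ u • ρ u` are `1 + λ`
(`m` times) and `1` (`n - m` times); its inverse is `ψ u⁻¹ • ρ u⁻¹`. By duality
`m (1 + λ) = m (1 + λ)⁻¹`, so (`m ≠ 0`) `1 + λ = -1` (as `λ ≠ 0`). So the trace of `ψ u • ρ u` is one
of the numbers `n - 2 m`, `0 ≤ m ≤ n`, for all `u ∈ U`; by `Conn` (`L = trace`, `U' = U`) it is
equal to `n`, so `m = 0` and `x` is nilpotent (all eigenvalues are `0`). -/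
def S_ALGA : Prop :=
  ∀ (F V G : Type) [Field F] [IsAlgClosed F] [CharZero F] [AddCommGroup V] [Module F V]
    [Module.Finite F V] [Group G] (ρ : G →* Module.End F V) (U : Subgroup G) (ψ : G → F)
    (𝓤 : Set (Subgroup G)),
    U.Normal → Finite (G ⧸ U) → Tw ψ U → Conn ρ ψ U 𝓤 →
    (∀ u ∈ U, LinearMap.trace F V (ψ u • ρ u) = LinearMap.trace F V (ψ u⁻¹ • ρ u⁻¹)) →
    ∀ Bad : Set (G ⧸ U), Bad.ncard * finrank F V ^ 2 < 2 * Nat.card (G ⧸ U) →
      (∀ g : G, (g : G ⧸ U) ∉ Bad → ∃ y, g⁻¹ * y ∈ U ∧ ∃ U' ∈ 𝓤,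
        {x : F | ∃ u ∈ U', x = LinearMap.trace F V (ρ y * (ψ u • ρ u))}.Finite) →
      ∀ u ∈ U, IsNilpotent (ψ u • ρ u - 1)

/-- **4 IRR** The key lemma for `B`. Proof. Write `r u = ψ u • ρ u` (a representation of `U`), and
`j = Nat.card (G ⧸ U)`, so `g ^ j ∈ U` for all `g`. For `u, v ∈ U`:
`A r(u)|W r(v)|W = r(y u v u⁻¹ y⁻¹)|W A r(u)|W`, and `ρ y r(u)` satisfies the same rule; so
`(A r(u)|W) ^ j = c • ((ρ y * r u) ^ j)|W` for a scalar `c`, by Schur (BURN; note that
`(ρ y * r u) ^ j = ψ u ^ j • ρ ((y u) ^ j)`, `(y u) ^ j ∈ U`, is invertible on `W`). The scalar does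
not depend on `u`: moving all the factors `A` to the left,
`(A r(u)) ^ j = A ^ j * r(y⁻¹ ^ (j-1) u y ^ (j-1)) * ... * r(u)`, and in the same way for `ρ y`, with
the same product of `r`'s; so `c` is the scalar with `A ^ j = c • ρ (y ^ j)|W`. (It may be easier to
prove by induction: `(A r(u)) ^ k = A ^ k * Q_k` and `(ρ y r(u)) ^ k = ρ (y ^ k) * Q_k` on `W`, with the
same `Q_k` in the monoid generated by the `r(v)|W`.) So the eigenvalues `κ` of `A r(u)` on `W` satisfy
`κ ^ j ∈ {c * λ ^ j | λ ∈ Λ}` for `u ∈ U'` (eigenvalues of the restriction of `(ρ y r(u)) ^ j` to the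
stable subspace `W` are eigenvalues of `(ρ y r(u)) ^ j`, hence `j`-th powers of eigenvalues of
`ρ y r(u)`, `F` algebraically closed), a finite set. So `trace_W (A r(u))` takes finitely many
values for `u ∈ U'`. It is `L (r u)` for a linear form `L` on `End V`
(`L x = trace_W (A ∘ p ∘ x ∘ ι)`, `p` a projection to `W`). By `Conn` it is constant on `U`; hence
`trace_W (A (r(u) - 1) r(v)) = 0` for all `u, v ∈ U`; by BURN `A (r(u) - 1) = 0` on `W`, and
`r(u) = 1` on `W`. -/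
def S_IRR : Prop :=
  ∀ (F V G : Type) [Field F] [IsAlgClosed F] [CharZero F] [AddCommGroup V] [Module F V]
    [Module.Finite F V] [Group G] (ρ : G →* Module.End F V) (U : Subgroup G) (ψ : G → F)
    (𝓤 : Set (Subgroup G)),
    U.Normal → Finite (G ⧸ U) → Tw ψ U → Conn ρ ψ U 𝓤 →
    ∀ W : Submodule F V, (∀ u ∈ U, ∀ x ∈ W, ρ u x ∈ W) →
      (∀ W' : Submodule F V, W' ≤ W → (∀ u ∈ U, ∀ x ∈ W', ρ u x ∈ W') → W' = ⊥ ∨ W' = W) →
      ∀ (y : G) (A : Module.End F W), Function.Injective A →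
        (∀ (u : G) (hu : u ∈ U) (x x' x'' : W), (x' : V) = ρ u x → (x'' : V) = ρ (y * u * y⁻¹) (A x) →
          A x' = x'') →
        (∃ U' ∈ 𝓤, ∃ Λ : Set F, Λ.Finite ∧ ∀ u ∈ U', ∀ κ : F,
          (ρ y * (ψ u • ρ u)).HasEigenvalue κ → κ ∈ Λ) →
        ∀ u ∈ U, ∀ x ∈ W, ψ u • ρ u x = x

/-- **5 ALGB** (uses `S_IRR`). Proof. Strong induction on `finrank F V`, in the following form with a
fixed number `N ≥ finrank F V` in place of `finrank F V`. If `V = 0` trivial. If there is a subspace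
`V₁`, stable under `G`, different from `0` and `V`: the hypotheses hold for `V₁` and `V ⧸ V₁`
(`Conn`: a linear form on `End V₁` composed with `x ↦ p ∘ x ∘ ι` is a linear form on `End V`; it is
applied only to operators which preserve `V₁`; eigenvalues on `V₁` and on `V ⧸ V₁` are eigenvalues
on `V`), so `ψ u • ρ u - 1` is nilpotent on `V₁` and `V ⧸ V₁`, hence on `V`. Now let `V` be
irreducible under `G`. `V^U = {x | ∀ u ∈ U, ψ u • ρ u x = x}` is stable under `G`; if it is `⊤` we are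
done. So it is `⊥`. Let `W ≠ 0` be a minimal subspace stable under `U`. The sum of the subspaces
`ρ x W`, `x ∈ G`, is stable under `G`, so it is `V`; choose `x_1, ..., x_M`, `M ≤ finrank F V ≤ N`, with
`V = ∑ ρ x_i W`. For each `g` there is an `i` with `g x_i` in `Bad`: `ρ g⁻¹ W` is an irreducible
representation of `U` in `∑ ρ x_i W`, so it is isomorphic to `ρ x_i W` for some `i` (take a minimal
set `I` of indices with `ρ g⁻¹ W ≤ ∑_{i ∈ I} ρ x_i W`; for `i₀ ∈ I` and `N' = ∑_{i ≠ i₀}` one has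
`ρ g⁻¹ W ⊓ N' = ⊥` and `ρ g⁻¹ W → (ρ x_{i₀} W + N') / N' = ρ x_{i₀} W / (ρ x_{i₀} W ⊓ N')` is an
isomorphism onto a nonzero quotient of an irreducible representation); applying `ρ g`: `W` is
isomorphic to `ρ h W`, `h = g x_i`, by `θ : ρ h W → W`. If `h` is not in `Bad`, take `y = h v`, `v ∈ U`,
and apply `S_IRR` with `A = θ ∘ ρ h ∘ ρ v|W`: then `U` acts trivially on `W`, so `W ≤ V^U = ⊥`,
contradiction. So `G ⧸ U` is the union of `M` translates of `Bad` and `card ≤ N * Bad.ncard`. -/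
def S_ALGB : Prop :=
  ∀ (F V G : Type) [Field F] [IsAlgClosed F] [CharZero F] [AddCommGroup V] [Module F V]
    [Module.Finite F V] [Group G] (ρ : G →* Module.End F V) (U : Subgroup G) (ψ : G → F)
    (𝓤 : Set (Subgroup G)),
    U.Normal → Finite (G ⧸ U) → Tw ψ U → Conn ρ ψ U 𝓤 →
    ∀ (N : ℕ), finrank F V ≤ N → ∀ Bad : Set (G ⧸ U), Bad.ncard * N < Nat.card (G ⧸ U) →
      (∀ g : G, (g : G ⧸ U) ∉ Bad → ∃ y, g⁻¹ * y ∈ U ∧ ∃ U' ∈ 𝓤, ∃ Λ : Set F, Λ.Finite ∧
        ∀ u ∈ U', ∀ κ : F, (ρ y * (ψ u • ρ u)).HasEigenvalue κ → κ ∈ Λ) →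
      ∀ u ∈ U, IsNilpotent (ψ u • ρ u - 1)

/-- **6 MEAS** A set of a noetherian family of closed sets which has positive measure on a coset
contains an open coset. Proof. Choose `Z₀ ∈ 𝒵`, `Z₀ ⊆ Z`, minimal with `μ (Z₀ ∩ g U) ≠ 0` (descending
chain condition). For `u ∈ U`: `u Z₀ ∩ g U = u (Z₀ ∩ g U)` (`U` is normal, `u⁻¹ g U = g U`), so it has
the same measure. If `μ (u Z₀ ∩ v Z₀ ∩ g U) ≠ 0` (`u, v ∈ U`), then `μ (Z₀ ∩ u⁻¹ v Z₀ ∩ g U) ≠ 0`, so
`Z₀ ∩ u⁻¹ v Z₀ = Z₀` by minimality, `Z₀ ⊆ u⁻¹ v Z₀`, and by symmetry `u Z₀ = v Z₀`. As `μ` is finite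
there are only finitely many different sets `u Z₀`, `u ∈ U`. So `N = {u ∈ U | u Z₀ = Z₀}` has finite
index in `U`, hence in `G` (`U` is open in a compact group); it is closed (`Z₀` is closed), hence
open (`Subgroup.isOpen_of_isClosed_of_finiteIndex`). Take any `z ∈ Z₀ ∩ g U`. -/
def S_MEAS : Prop :=
  ∀ (G : Type) [Group G] [TopologicalSpace G] [IsTopologicalGroup G] [CompactSpace G]
    [MeasurableSpace G] [BorelSpace G] (μ : Measure G) [IsFiniteMeasure μ]
    [μ.IsMulLeftInvariant] (𝒵 : Set (Set G)),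
    (∀ Z ∈ 𝒵, IsClosed Z) → (∀ Z ∈ 𝒵, ∀ Z' ∈ 𝒵, Z ∩ Z' ∈ 𝒵) →
    (∀ Z ∈ 𝒵, ∀ g : G, (fun x => g * x) '' Z ∈ 𝒵) →
    (∀ s : ℕ → Set G, (∀ k, s k ∈ 𝒵) → Antitone s → ∃ N, ∀ k, N ≤ k → s k = s N) →
    ∀ U : Subgroup G, U.Normal → IsOpen (U : Set G) → ∀ Z ∈ 𝒵, ∀ g : G,
      μ (Z ∩ {x | g⁻¹ * x ∈ U}) ≠ 0 →
      ∃ N : Subgroup G, IsOpen (N : Set G) ∧ N ≤ U ∧ ∃ z ∈ Z, g⁻¹ * z ∈ U ∧ ∀ u ∈ N, u * z ∈ Z

/-- the sets which are defined by polynomials in the entries of `r g` and in `c g` -/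
def Pol {F G : Type} [Field F] [Group G] {n : ℕ} (r : G → Matrix (Fin n) (Fin n) F)
    (c : G → F) : Set (Set G) :=
  {Z | ∃ J : Set (MvPolynomial (Option (Fin n × Fin n)) F), Z = {g | ∀ P ∈ J,
    MvPolynomial.eval (fun o => Option.elim o (c g) fun p => r g p.1 p.2) P = 0}}

/-- **7 POLY** Proof. Closed: polynomials are continuous. Intersections: `J ∪ J'`. Translates:
`g Z = {x | g⁻¹ x ∈ Z}`, and `r (g⁻¹ x) = r (g⁻¹) * r x`, `c (g⁻¹ x) = c (g⁻¹) * c x`, so substitute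
linear forms in the polynomials of `J`. Chains: to `Z` attach the ideal `I(Z)` of all polynomials
which vanish on `Z`; `Z ∈ Pol` is the zero set of `I(Z)`, and the polynomial ring is noetherian
(`Option (Fin n × Fin n)` is finite). -/
def S_POLY : Prop :=
  ∀ (F G : Type) [Field F] [TopologicalSpace F] [IsTopologicalRing F] [T2Space F] [Group G]
    [TopologicalSpace G] [IsTopologicalGroup G] (n : ℕ) (r : G →* Matrix (Fin n) (Fin n) F)
    (c : G →* F), Continuous r → Continuous c →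
    (∀ Z ∈ Pol r c, IsClosed Z) ∧ (∀ Z ∈ Pol r c, ∀ Z' ∈ Pol r c, Z ∩ Z' ∈ Pol r c) ∧
    (∀ Z ∈ Pol r c, ∀ g : G, (fun x => g * x) '' Z ∈ Pol r c) ∧
    ∀ s : ℕ → Set G, (∀ k, s k ∈ Pol r c) → Antitone s → ∃ N, ∀ k, N ≤ k → s k = s N

/-- **9 SQRT** A local square root of a character. Proof. For `x` with `‖x - 1‖ < ‖(2:F)‖ ^ 2` there is
exactly one `s` with `s ^ 2 = x` and `‖s - 1‖ < ‖2‖`: take a square root `s` (`F` algebraically
closed), `‖s - 1‖ * ‖s + 1‖ = ‖x - 1‖ < ‖2‖ ^ 2`, so one of the factors is `< ‖2‖`, change the sign of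
`s` if it is the second; if `‖s - 1‖ < ‖2‖` then `‖-s - 1‖ = ‖2 + (s - 1)‖ = ‖2‖` is not `< ‖2‖`. By
uniqueness `s(x x') = s(x) s(x')` (`‖s s' - 1‖ ≤ max (‖s - 1‖, ‖s' - 1‖)` as `‖s‖ = ‖s'‖ = 1`), and
`‖s(x) - s(x')‖ * ‖2‖ = ‖x - x'‖`, so `s` is continuous. `U` is an open normal subgroup contained in
the neighbourhood `{g | ‖c g ^ w - 1‖ < ‖2‖ ^ 2}` of `1`, and `ψ g = s (c g ^ w)`. (`c g` is invertible
as `c` is a homomorphism from a group.) -/
def S_SQRT : Prop :=
  ∀ (F G : Type) [NormedField F] [IsAlgClosed F] [IsUltrametricDist F] [CharZero F] [Group G]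
    [TopologicalSpace G] [IsTopologicalGroup G] [CompactSpace G] [T2Space G]
    [TotallyDisconnectedSpace G] (c : G →* F) (w : ℤ), Continuous c →
    ∃ (U : Subgroup G) (ψ : G → F), U.Normal ∧ IsOpen (U : Set G) ∧ Tw ψ U ∧
      ContinuousOn ψ (U : Set G) ∧ ∀ u ∈ U, ψ u ^ 2 = c u ^ w

/-- **10 CONN** Existence of connected subgroups. Proof. Among all open normal subgroups `U ≤ U₀`
choose one for which the dimension of `D_U = span {ψ u • ρ u - 1 | u ∈ U}` is minimal (`ρ = toEnd r`). Then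
`D_{U'} = D_U` for all open normal `U' ≤ U`. If `L (ψ u • ρ u)` has finitely many values on `U'`,
then it is equal to its value `L 1` at `u = 1` on a neighbourhood of `1` in `U'` (it is continuous, and
the set of the other values is finite, hence closed), which contains an open normal subgroup `U''`.
So `L` vanishes on `D_{U''} = D_U`. -/
def S_CONN : Prop :=
  ∀ (F G : Type) [Field F] [TopologicalSpace F] [IsTopologicalRing F] [T2Space F] [Group G]
    [TopologicalSpace G] [IsTopologicalGroup G] [CompactSpace G] [T2Space G]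
    [TotallyDisconnectedSpace G] (n : ℕ) (r : G →* Matrix (Fin n) (Fin n) F), Continuous r →
    ∀ (U₀ : Subgroup G) (ψ : G → F), U₀.Normal → IsOpen (U₀ : Set G) → Tw ψ U₀ →
      ContinuousOn ψ (U₀ : Set G) →
    ∃ U : Subgroup G, U.Normal ∧ IsOpen (U : Set G) ∧ U ≤ U₀ ∧ Tw ψ U ∧
      Conn (toEnd r) ψ U {U' | U'.Normal ∧ IsOpen (U' : Set G) ∧ U' ≤ U}

end Pool.Agent.D0H45.TH
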