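import Pool.Agent.D0H45.TH.StmB

/-!
# PROJECT TH: assembly, part 1
-/

set_option autoImplicit false
set_option maxHeartbeats 400000

namespace Pool.Agent.D0H45.TH

open Module NumberField Filter Topology IsDedekindDomain MeasureTheory
open Pool.Agent.W401.Cheb Pool.Agent.R401.Img Pool.Agent.R401.Sup

section find

variable {K : Type} [Field K] [NumberField K] {F : Type} [Field F] [TopologicalSpace F]
  [IsTopologicalRing F] [T2Space F] {n : ℕ}

/-- the matrices -/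
noncomputable def rm (r : GK K →* GL (Fin n) F) : GK K →* Matrix (Fin n) (Fin n) F :=
  (Units.coeHom _).comp r

theorem rm_apply (r : GK K →* GL (Fin n) F) (g : GK K) : rm r g = mt r g := rfl

theorem toEnd_rm (r : GK K →* GL (Fin n) F) : toEnd (rm r) = act r := rfl

theorem continuous_rm (r : GK K →* GL (Fin n) F) (hr : Continuous r) : Continuous (rm r) :=
  Units.continuous_val.comp hr

/-- the good cosets -/
theorem find (hMEAS : S_MEAS) (hPOLY : S_POLY) (hCHEB : S_CHEB)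
    (r : GK K →* GL (Fin n) F) (hr : Continuous r) (c : GK K →* F) (hc : Continuous c)
    {ι : Type} (s : Set ι) (hs : s.Finite) (Z : ι → Set (GK K)) (hZ : ∀ i ∈ s, Z i ∈ Pol (rm r) c)
    (hconj : ∀ g, (∃ i ∈ s, g ∈ Z i) → ∀ x : GK K, ∃ i ∈ s, x * g * x⁻¹ ∈ Z i) (θ : ℝ)
    (hfreq : ∃ᶠ N : ℕ in atTop, dens (fun v : HeightOneSpectrum (𝓞 K) =>
      ∃ g, IsFrob v g ∧ ¬ ∃ i ∈ s, g ∈ Z i) N ≤ θ)
    (U : Subgroup (GK K)) (hUn : U.Normal) (hUo : IsOpen (U : Set (GK K))) :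
    ∃ Bad : Set (GK K ⧸ U), (Bad.ncard : ℝ) ≤ θ * Nat.card (GK K ⧸ U) ∧
      ∀ g : GK K, (g : GK K ⧸ U) ∉ Bad → ∃ i ∈ s, ∃ z ∈ Z i, g⁻¹ * z ∈ U ∧
        ∃ U' : Subgroup (GK K), (U'.Normal ∧ IsOpen (U' : Set (GK K)) ∧ U' ≤ U) ∧
          ∀ u ∈ U', z * u ∈ Z i := by
  classical
  letI : MeasurableSpace (GK K) := borel _
  haveI : BorelSpace (GK K) := ⟨rfl⟩
  let μ : Measure (GK K) := Measure.haarMeasure (⊤ : TopologicalSpace.PositiveCompacts (GK K))
  haveI hprob : IsProbabilityMeasure μ := ⟨by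
    have h1 := Measure.haarMeasure_self (K₀ := (⊤ : TopologicalSpace.PositiveCompacts (GK K)))
    rwa [TopologicalSpace.PositiveCompacts.coe_top] at h1⟩
  obtain ⟨h1, h2, h3, h4⟩ := hPOLY F (GK K) n (rm r) c (continuous_rm r hr) hc
  set Good : Set (GK K) := {g | ∃ i ∈ s, g ∈ Z i} with hGood
  have hGU : Good = ⋃ i ∈ s, Z i := by
    ext g
    simp [hGood]
  have hcl : IsClosed Good := by
    rw [hGU]
    exact hs.isClosed_biUnion fun i hi => h1 _ (hZ i hi)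
  refine ⟨{q : GK K ⧸ U | μ (Good ∩ {x : GK K | (x : GK K ⧸ U) = q}) = 0},
    hCHEB K μ Good hcl (fun g hg x => hconj g hg x) θ hfreq U hUn hUo, ?_⟩
  intro g hg
  have hg' : μ (Good ∩ {x : GK K | (x : GK K ⧸ U) = (g : GK K ⧸ U)}) ≠ 0 := hg
  have hset : {x : GK K | (x : GK K ⧸ U) = (g : GK K ⧸ U)} = {x | g⁻¹ * x ∈ U} := by
    ext x
    rw [Set.mem_setOf_eq, Set.mem_setOf_eq, eq_comm, QuotientGroup.eq]
  rw [hset, hGU, Set.iUnion₂_inter] at hg'
  have hex : ∃ i ∈ s, μ (Z i ∩ {x | g⁻¹ * x ∈ U}) ≠ 0 := by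
    by_contra hcon
    push Not at hcon
    exact hg' ((measure_biUnion_null_iff hs.countable).2 hcon)
  obtain ⟨i, hi, hμ⟩ := hex
  obtain ⟨N, hNo, hNU, z, hz, hgz, hN⟩ := hMEAS (GK K) μ (Pol (rm r) c) h1 h2 h3 h4 U hUn hUo (Z i)
    (hZ i hi) g hμ
  have hfin : Finite (GK K ⧸ N) := Subgroup.quotient_finite_of_isOpen _ hNo
  have hfi : N.FiniteIndex := Subgroup.finiteIndex_of_finite_quotient
  have hNc : IsOpen (N.normalCore : Set (GK K)) :=
    Subgroup.isOpen_of_isClosed_of_finiteIndex _ (N.normalCore_isClosed (N.isClosed_of_isOpen hNo))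
  refine ⟨i, hi, z, hz, hgz, N.normalCore, ⟨inferInstance, hNc, N.normalCore_le.trans hNU⟩, ?_⟩
  intro u hu
  have h5 : z * u * z⁻¹ ∈ N.normalCore := N.normalCore_normal.conj_mem u hu z
  have h6 := hN _ (N.normalCore_le h5)
  rwa [inv_mul_cancel_right] at h6

end find

end Pool.Agent.D0H45.TH
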