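import Pool.Agent.D0H45.TH.Asm

/-!
# PROJECT TH: assembly, part 2 (traces)
-/

set_option autoImplicit false
set_option maxHeartbeats 400000

namespace Pool.Agent.D0H45.TH

open Module NumberField Filter Topology IsDedekindDomain MeasureTheory
open Pool.Agent.W401.Cheb Pool.Agent.R401.Img Pool.Agent.R401.Sup

section core

variable {K : Type} [Field K] [NumberField K] {F : Type} [Field F] [TopologicalSpace F]
  [IsTopologicalRing F] [T2Space F] {n : ℕ}

/-- the set defined by one value -/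
theorem mem_Pol_tr (r : GK K →* GL (Fin n) F) (c : GK K →* F) (w : ℕ) (y : F) :
    {g : GK K | (mt r g).trace ^ 2 = c g ^ w * y} ∈ Pol (rm r) c := by
  classical
  refine ⟨{(∑ i : Fin n, MvPolynomial.X (some (i, i))) ^ 2 -
    MvPolynomial.X none ^ w * MvPolynomial.C y}, ?_⟩
  ext g
  simp only [Set.mem_setOf_eq, Set.mem_singleton_iff, forall_eq, map_sub, map_pow, map_sum,
    map_mul, MvPolynomial.eval_X, MvPolynomial.eval_C, Option.elim, rm_apply, sub_eq_zero]
  rfl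

/-- the twist on `U` -/
theorem trace_smul_act (r : GK K →* GL (Fin n) F) (z u : GK K) (a : F) :
    LinearMap.trace F (Fin n → F) (act r z * (a • act r u)) = a * (mt r (z * u)).trace := by
  rw [mul_smul_comm, ← map_mul, map_smul, trace_act, smul_eq_mul]

theorem coreA [IsAlgClosed F] [CharZero F] (hALGA : S_ALGA) (hMEAS : S_MEAS) (hPOLY : S_POLY)
    (hCHEB : S_CHEB) (hCONN : S_CONN) (hn : 0 < n)
    (r : GK K →* GL (Fin n) F) (hr : Continuous r) (c : GK K →* F) (hc : Continuous c) (w : ℕ)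
    (Y : Set F) (hY : Y.Finite) (θ : ℝ) (hθ : θ * n ^ 2 < 2)
    (hfreq : ∃ᶠ N : ℕ in atTop, dens (fun v : HeightOneSpectrum (𝓞 K) =>
      ∃ g, IsFrob v g ∧ ¬ ∃ y ∈ Y, (mt r g).trace ^ 2 = c g ^ w * y) N ≤ θ)
    (U₀ : Subgroup (GK K)) (ψ : GK K → F) (hU₀n : U₀.Normal) (hU₀ : IsOpen (U₀ : Set (GK K)))
    (hψ : Tw ψ U₀) (hψc : ContinuousOn ψ (U₀ : Set (GK K))) (hψ2 : ∀ u ∈ U₀, ψ u ^ 2 * c u ^ w = 1)
    (hdual : ∀ g, (mt r g).trace = c g ^ w * (mt r g⁻¹).trace) :
    ∃ U : Subgroup (GK K), U.Normal ∧ IsOpen (U : Set (GK K)) ∧ U ≤ U₀ ∧ Tw ψ U ∧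
      ∀ u ∈ U, IsNilpotent (ψ u • act r u - 1) := by
  classical
  obtain ⟨U, hUn, hUo, hUU, hT, hC⟩ := hCONN F (GK K) n (rm r) (continuous_rm r hr) U₀ ψ hU₀n hU₀
    hψ hψc
  rw [toEnd_rm] at hC
  refine ⟨U, hUn, hUo, hUU, hT, ?_⟩
  have hfin : Finite (GK K ⧸ U) := Subgroup.quotient_finite_of_isOpen _ hUo
  have htrc : ∀ g x : GK K, (mt r (x * g * x⁻¹)).trace = (mt r g).trace := by
    intro g x
    rw [mt_mul, mt_mul, Matrix.trace_mul_comm, ← mul_assoc, ← mt_mul, inv_mul_cancel]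
    have h1 : mt r 1 = 1 := by
      unfold Pool.Agent.R401.Img.mt
      rw [map_one, Units.val_one]
    rw [h1, one_mul]
  have hcc : ∀ g x : GK K, c (x * g * x⁻¹) = c g := by
    intro g x
    rw [map_mul, map_mul, c_inv]
    field_simp [c_ne c x]
  obtain ⟨Bad, hBad, hgood⟩ := find hMEAS hPOLY hCHEB r hr c hc Y hY
    (fun y => {g : GK K | (mt r g).trace ^ 2 = c g ^ w * y}) (fun y _ => mem_Pol_tr r c w y)
    (by
      rintro g ⟨y, hy, hg⟩ x
      refine ⟨y, hy, ?_⟩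
      rw [Set.mem_setOf_eq] at hg ⊢
      rw [htrc, hcc, hg]) θ hfreq U hUn hUo
  have hcard : Bad.ncard * finrank F (Fin n → F) ^ 2 < 2 * Nat.card (GK K ⧸ U) := by
    rw [finrank_fin_fun]
    have hpos : (0 : ℝ) < Nat.card (GK K ⧸ U) := by exact_mod_cast Nat.card_pos
    have hn2 : (0 : ℝ) < (n : ℝ) ^ 2 := by positivity
    have h1 : ((Bad.ncard * n ^ 2 : ℕ) : ℝ) < ((2 * Nat.card (GK K ⧸ U) : ℕ) : ℝ) := by
      push_cast
      nlinarith
    exact_mod_cast h1
  refine hALGA F (Fin n → F) (GK K) (act r) U ψ _ hUn hfin hT hC ?_ Bad hcard ?_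
  · intro u hu
    have hui := U.inv_mem hu
    have h1 : ψ u * ψ u⁻¹ = 1 := by rw [← hT.mul u hu u⁻¹ hui, mul_inv_cancel, hT.one]
    have h2 := hψ2 u (hUU hu)
    rw [map_smul, map_smul, trace_act, trace_act, smul_eq_mul, smul_eq_mul, hdual u]
    have h3 : ψ u⁻¹ = ψ u * c u ^ w := by
      have h4 : ψ u ≠ 0 := hT.ne u hu
      apply mul_left_cancel₀ h4
      rw [h1, ← mul_assoc, ← pow_two, h2]
    rw [h3, mul_assoc]
  · intro g hg
    obtain ⟨y, hy, z, hz, hgz, U', hU', hzU⟩ := hgood g hg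
    refine ⟨z, hgz, U', hU', ?_⟩
    set e : F := c z ^ w * y with he
    have h1 : {x : F | x ^ 2 = e}.Finite := by
      have h2 : {x : F | x ^ 2 = e} ⊆
          ((Polynomial.X ^ 2 - Polynomial.C e).roots.toFinset : Set F) := by
        intro x hx
        rw [Finset.mem_coe, Multiset.mem_toFinset, Polynomial.mem_roots
          (Polynomial.X_pow_sub_C_ne_zero two_pos e)]
        simp only [Polynomial.IsRoot.def, Polynomial.eval_sub, Polynomial.eval_pow,
          Polynomial.eval_X, Polynomial.eval_C]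
        exact sub_eq_zero.2 hx
      exact (Finset.finite_toSet _).subset h2
    refine h1.subset ?_
    rintro _ ⟨u, hu, rfl⟩
    rw [Set.mem_setOf_eq, trace_smul_act, mul_pow]
    have h3 : (mt r (z * u)).trace ^ 2 = c (z * u) ^ w * y := hzU u hu
    have h2 := hψ2 u (hUU (hU'.2.2 hu))
    rw [h3, map_mul, mul_pow, he]
    linear_combination (c z ^ w * y) * h2

end core

end Pool.Agent.D0H45.TH
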