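import Pool.Agent.D0H45.TH.Stm

/-!
# PROJECT TH: characteristic polynomials
-/

set_option autoImplicit false

namespace Pool.Agent.D0H45.TH

theorem exists_coeff (F : Type) [Field F] (n j : ℕ) :
    ∃ P : MvPolynomial (Option (Fin n × Fin n)) F, ∀ (a : F) (M : Matrix (Fin n) (Fin n) F),
      MvPolynomial.eval (fun o => Option.elim o a fun p => M p.1 p.2) P = M.charpoly.coeff j := by
  classical
  refine ⟨MvPolynomial.rename some ((Matrix.charpoly.univ F (Fin n)).coeff j), fun a M => ?_⟩
  rw [MvPolynomial.eval_rename]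
  have h1 := Matrix.charpoly.univ_coeff_eval₂Hom (Fin n) (RingHom.id F) (fun p => M p.1 p.2) j
  have h2 : Matrix.of (Function.curry fun p : Fin n × Fin n => M p.1 p.2) = M := by
    ext i j
    rfl
  rw [h2] at h1
  exact h1

/-- finitely many characteristic polynomials, finitely many eigenvalues -/
theorem finite_eig {F : Type} [Field F] {n : ℕ} (e : Fin (n + 1) → F) :
    {κ : F | ∃ p : Polynomial F, p.Monic ∧ p.natDegree = n ∧
      (∀ j : Fin (n + 1), p.coeff (n - j) ^ 2 = e j) ∧ p.IsRoot κ}.Finite := by
  classical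
  have h1 : {p : Polynomial F | p.Monic ∧ p.natDegree = n ∧
      (∀ j : Fin (n + 1), p.coeff (n - j) ^ 2 = e j)}.Finite := by
    have h2 : {f : Fin (n + 1) → F | ∀ j, f j ∈ {x : F | x ^ 2 = e j}}.Finite := by
      refine Set.Finite.pi' fun j => ?_
      have h3 : {x : F | x ^ 2 = e j} ⊆
          ((Polynomial.X ^ 2 - Polynomial.C (e j)).roots.toFinset : Set F) := by
        intro x hx
        rw [Finset.mem_coe, Multiset.mem_toFinset, Polynomial.mem_roots
          (Polynomial.X_pow_sub_C_ne_zero two_pos (e j))]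
        simp only [Polynomial.IsRoot.def, Polynomial.eval_sub, Polynomial.eval_pow,
          Polynomial.eval_X, Polynomial.eval_C]
        exact sub_eq_zero.2 hx
      exact (Finset.finite_toSet _).subset h3
    refine Set.Finite.of_finite_image (f := fun p : Polynomial F =>
      fun j : Fin (n + 1) => p.coeff (n - j)) (h2.subset ?_) ?_
    · rintro _ ⟨p, hp, rfl⟩ j
      exact hp.2.2 j
    · intro p hp q hq hpq
      ext i
      by_cases hi : i ≤ n
      · have h4 := congrFun hpq ⟨n - i, by omega⟩
        simpa [Nat.sub_sub_self hi] using h4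
      · rw [Polynomial.coeff_eq_zero_of_natDegree_lt (by rw [hp.2.1]; omega),
          Polynomial.coeff_eq_zero_of_natDegree_lt (by rw [hq.2.1]; omega)]
  refine (h1.biUnion fun p hp => (Finset.finite_toSet p.roots.toFinset)).subset ?_
  rintro κ ⟨p, hp1, hp2, hp3, hp4⟩
  refine Set.mem_biUnion (x := p) ⟨hp1, hp2, hp3⟩ ?_
  rw [Finset.mem_coe, Multiset.mem_toFinset, Polynomial.mem_roots hp1.ne_zero]
  exact hp4

/-- the characteristic polynomial of a multiple -/
theorem coeff_charpoly_smul {F : Type} [Field F] {n : ℕ} (a : F) (ha : a ≠ 0)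
    (M : Matrix (Fin n) (Fin n) F) (j : ℕ) (hj : j ≤ n) :
    (a • M).charpoly.coeff (n - j) = a ^ j * M.charpoly.coeff (n - j) := by
  classical
  have h1 : (Polynomial.compRingHom (Polynomial.C a * Polynomial.X)) (a • M).charpoly =
      Polynomial.C (a ^ n) * M.charpoly := by
    rw [Matrix.charpoly, RingHom.map_det]
    have h2 : (Polynomial.compRingHom (Polynomial.C a * Polynomial.X)).mapMatrix
        (a • M).charmatrix = (Polynomial.C a) • M.charmatrix := by
      ext1 i j
      rw [RingHom.mapMatrix_apply, Matrix.map_apply, Matrix.smul_apply]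
      by_cases hij : i = j
      · subst hij
        rw [Matrix.charmatrix_apply_eq, Matrix.charmatrix_apply_eq]
        simp [mul_sub]
      · rw [Matrix.charmatrix_apply_ne _ _ _ hij, Matrix.charmatrix_apply_ne _ _ _ hij]
        simp
    rw [h2, Matrix.det_smul, Fintype.card_fin, Matrix.charpoly, map_pow]
  have h3 := congrArg (fun p => Polynomial.coeff p (n - j)) h1
  simp only [Polynomial.coe_compRingHom_apply, Polynomial.comp_C_mul_X_coeff,
    Polynomial.coeff_C_mul] at h3
  have h4 : a ^ n = a ^ j * a ^ (n - j) := by rw [← pow_add]; congr 1; omega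
  rw [h4] at h3
  have h5 : a ^ (n - j) ≠ 0 := pow_ne_zero _ ha
  apply mul_right_cancel₀ h5
  rw [h3]
  ring

end Pool.Agent.D0H45.TH
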