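import Pool.Agent.D0H45.TH.CoreA
import Pool.Agent.D0H45.TH.Cp

/-!
# PROJECT TH: assembly, part 3 (characteristic polynomials)
-/

set_option autoImplicit false
set_option maxHeartbeats 400000

namespace Pool.Agent.D0H45.TH

open Module NumberField Filter Topology IsDedekindDomain MeasureTheory
open Pool.Agent.W401.Cheb Pool.Agent.R401.Img Pool.Agent.R401.Sup

section core

variable {K : Type} [Field K] [NumberField K] {F : Type} [Field F] [TopologicalSpace F]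
  [IsTopologicalRing F] [T2Space F] {n : ℕ}

theorem mem_Pol_cp (r : GK K →* GL (Fin n) F) (c : GK K →* F) (w : ℕ) (y : Fin (n + 1) → F) :
    {g : GK K | ∀ j : Fin (n + 1), (mt r g).charpoly.coeff (n - j) ^ 2 = c g ^ ((j : ℕ) * w) * y j} ∈
      Pol (rm r) c := by
  classical
  choose P hP using fun j : Fin (n + 1) => exists_coeff F n (n - j)
  refine ⟨Set.range fun j : Fin (n + 1) => P j ^ 2 -
    MvPolynomial.X none ^ ((j : ℕ) * w) * MvPolynomial.C (y j), ?_⟩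
  ext g
  simp only [Set.mem_setOf_eq, Set.forall_mem_range, map_sub, map_pow,
    map_mul, MvPolynomial.eval_X, MvPolynomial.eval_C, sub_eq_zero, hP]
  rfl

theorem coreB [IsAlgClosed F] [CharZero F] (hALGB : S_ALGB) (hMEAS : S_MEAS) (hPOLY : S_POLY)
    (hCHEB : S_CHEB) (hCONN : S_CONN) 
    (r : GK K →* GL (Fin n) F) (hr : Continuous r) (c : GK K →* F) (hc : Continuous c) (w : ℕ)
    (Y : Set F) (hY : Y.Finite) (θ : ℝ) (hθ : θ * n < 1)
    (hfreq : ∃ᶠ N : ℕ in atTop, dens (fun v : HeightOneSpectrum (𝓞 K) =>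
      ∃ g, IsFrob v g ∧ ¬ ∀ j : Fin (n + 1), ∃ y ∈ Y,
        (mt r g).charpoly.coeff (n - j) ^ 2 = c g ^ ((j : ℕ) * w) * y) N ≤ θ)
    (U₀ : Subgroup (GK K)) (ψ : GK K → F) (hU₀n : U₀.Normal) (hU₀ : IsOpen (U₀ : Set (GK K)))
    (hψ : Tw ψ U₀) (hψc : ContinuousOn ψ (U₀ : Set (GK K))) (hψ2 : ∀ u ∈ U₀, ψ u ^ 2 * c u ^ w = 1) :
    ∃ U : Subgroup (GK K), U.Normal ∧ IsOpen (U : Set (GK K)) ∧ U ≤ U₀ ∧ Tw ψ U ∧
      ∀ u ∈ U, IsNilpotent (ψ u • act r u - 1) := by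
  classical
  obtain ⟨U, hUn, hUo, hUU, hT, hC⟩ := hCONN F (GK K) n (rm r) (continuous_rm r hr) U₀ ψ hU₀n hU₀
    hψ hψc
  rw [toEnd_rm] at hC
  refine ⟨U, hUn, hUo, hUU, hT, ?_⟩
  have hfin : Finite (GK K ⧸ U) := Subgroup.quotient_finite_of_isOpen _ hUo
  have hcpc : ∀ g x : GK K, (mt r (x * g * x⁻¹)).charpoly = (mt r g).charpoly := by
    intro g x
    have h1 : mt r (x * g * x⁻¹) = (r x : Matrix (Fin n) (Fin n) F) * mt r g *
        ((r x)⁻¹ : GL (Fin n) F) := by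
      unfold Pool.Agent.R401.Img.mt
      rw [map_mul, map_mul, map_inv, Units.val_mul, Units.val_mul]
    rw [h1, Matrix.coe_units_inv]
    exact Matrix.charpoly_units_conj (r x) (mt r g)
  have hcc : ∀ g x : GK K, c (x * g * x⁻¹) = c g := by
    intro g x
    rw [map_mul, map_mul, c_inv]
    field_simp [c_ne c x]
  have hs : {y : Fin (n + 1) → F | ∀ j, y j ∈ Y}.Finite := Set.Finite.pi' fun _ => hY
  obtain ⟨Bad, hBad, hgood⟩ := find hMEAS hPOLY hCHEB r hr c hc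
    {y : Fin (n + 1) → F | ∀ j, y j ∈ Y} hs
    (fun y => {g : GK K | ∀ j : Fin (n + 1),
      (mt r g).charpoly.coeff (n - j) ^ 2 = c g ^ ((j : ℕ) * w) * y j})
    (fun y _ => mem_Pol_cp r c w y)
    (by
      rintro g ⟨y, hy, hg⟩ x
      refine ⟨y, hy, ?_⟩
      intro j
      have h1 := hg j
      rw [hcpc, hcc, h1]) θ (by
      refine hfreq.mono fun N hN => le_trans (Pool.Agent.R401.Eng.dens_le ?_ N) hN
      rintro v ⟨g, hg, hno⟩
      refine ⟨g, hg, fun hall => hno ?_⟩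
      choose y hy1 hy2 using hall
      exact ⟨y, hy1, hy2⟩) U hUn hUo
  have hcard : Bad.ncard * n < Nat.card (GK K ⧸ U) := by
    have hpos : (0 : ℝ) < Nat.card (GK K ⧸ U) := by exact_mod_cast Nat.card_pos
    have hn2 : (0 : ℝ) ≤ (n : ℝ) := Nat.cast_nonneg n
    have h1 : ((Bad.ncard * n : ℕ) : ℝ) < ((Nat.card (GK K ⧸ U) : ℕ) : ℝ) := by
      push_cast
      nlinarith
    exact_mod_cast h1
  refine hALGB F (Fin n → F) (GK K) (act r) U ψ _ hUn hfin hT hC n (by rw [finrank_fin_fun]) Bad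
    hcard ?_
  intro g hg
  obtain ⟨y, hy, z, hz, hgz, U', hU', hzU⟩ := hgood g hg
  refine ⟨z, hgz, U', hU', _, finite_eig (n := n) (fun j : Fin (n + 1) => c z ^ ((j : ℕ) * w) * y j),
    ?_⟩
  intro u hu κ hκ
  have hψ0 : ψ u ≠ 0 := hT.ne u (hU'.2.2 hu)
  have h1 : act r z * (ψ u • act r u) = Matrix.toLin' (ψ u • mt r (z * u)) := by
    rw [mul_smul_comm, ← map_mul, act_eq, map_smul]
  rw [h1, Module.End.hasEigenvalue_iff_isRoot_charpoly, Matrix.charpoly_toLin'] at hκ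
  refine ⟨(ψ u • mt r (z * u)).charpoly, Matrix.charpoly_monic _, ?_, ?_, hκ⟩
  · rw [Matrix.charpoly_natDegree_eq_dim, Fintype.card_fin]
  · intro j
    have hj : (j : ℕ) ≤ n := by omega
    rw [coeff_charpoly_smul (ψ u) hψ0 _ j hj, mul_pow]
    have h3 : (mt r (z * u)).charpoly.coeff (n - j) ^ 2 = c (z * u) ^ ((j : ℕ) * w) * y j :=
      hzU u hu j
    have h2 := hψ2 u (hUU (hU'.2.2 hu))
    have h4 : (ψ u ^ (j : ℕ)) ^ 2 * c u ^ ((j : ℕ) * w) = 1 := by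
      rw [← pow_mul, mul_comm (j : ℕ) 2, pow_mul, mul_comm (j : ℕ) w, pow_mul, ← mul_pow, h2,
        one_pow]
    rw [h3, map_mul, mul_pow]
    linear_combination (c z ^ ((j : ℕ) * w) * y j) * h4

end core

end Pool.Agent.D0H45.TH
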