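import Pool.Agent.D0H45.TH.One

/-!
# PROJECT TH: assembly, part 5
-/

set_option autoImplicit false
set_option maxHeartbeats 400000

namespace Pool.Agent.D0H45.TH

open Module NumberField Filter Topology IsDedekindDomain MeasureTheory
open Pool.Agent.W401.Cheb Pool.Agent.R401.Img Pool.Agent.R401.Sup Pool.Agent.R401.Sup3
open Pool.Agent.R401.Sup4 Pool.Agent.R401.Sup2 Pool.Agent.R401.Tr2

variable {K : Type} [Field K] [NumberField K]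

section family

variable {n : ℕ}

/-- as `Pool.Agent.R401.Tr5.family` -/
theorem family (ρ : ∀ (ℓ : ℕ) [Fact ℓ.Prime], GK K →* GL (Fin n) ℚ_[ℓ])
    (B : Set (HeightOneSpectrum (𝓞 K))) (hB : B.Finite) (a : HeightOneSpectrum (𝓞 K) → ℤ) (w : ℕ)
    (htr : ∀ (ℓ : ℕ) [Fact ℓ.Prime], ∀ v, v ∉ B → (ℓ : 𝓞 K) ∉ v.asIdeal → ∀ g, IsFrob v g →
      (mt (ρ ℓ) g⁻¹).trace = (a v : ℚ_[ℓ]))
    (hone : ∀ (ℓ : ℕ) [Fact ℓ.Prime], (2 : ℤ) ∣ w ∧ ∀ u : ℤ, (w : ℤ) = 2 * u →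
      ∃ U : Subgroup (GK K), U.Normal ∧ IsOpen (U : Set (GK K)) ∧
        ∀ x ∈ U, ∀ y, (tw (ρ ℓ) (cyc K ℓ ℚ_[ℓ]) (-u) (x * y)).trace =
          (tw (ρ ℓ) (cyc K ℓ ℚ_[ℓ]) (-u) y).trace) :
    ∃ (u : ℕ) (φ : GK K → ℚ) (U : Subgroup (GK K)), w = 2 * u ∧ U.Normal ∧
      IsOpen (U : Set (GK K)) ∧ (∀ x ∈ U, ∀ y, φ (x * y) = φ y) ∧
      ∀ (ℓ : ℕ) [Fact ℓ.Prime] (y : GK K),
        (tw (ρ ℓ) (cyc K ℓ ℚ_[ℓ]) (-(u : ℤ)) y).trace = (φ y : ℚ_[ℓ]) := by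
  classical
  have h2p : Fact (Nat.Prime 2) := ⟨Nat.prime_two⟩
  obtain ⟨hw, -⟩ := hone 2
  obtain ⟨u, hu⟩ : ∃ u : ℕ, w = 2 * u := by
    have h1 : 2 ∣ w := by exact_mod_cast hw
    exact h1
  have hu' : (w : ℤ) = 2 * (u : ℤ) := by exact_mod_cast hu
  have hU : ∀ (ℓ : ℕ) [Fact ℓ.Prime], ∃ U : Subgroup (GK K), U.Normal ∧
      IsOpen (U : Set (GK K)) ∧ ∀ x ∈ U, ∀ y, (tw (ρ ℓ) (cyc K ℓ ℚ_[ℓ]) (-(u : ℤ)) (x * y)).trace =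
        (tw (ρ ℓ) (cyc K ℓ ℚ_[ℓ]) (-(u : ℤ)) y).trace := fun ℓ _ => (hone ℓ).2 u hu'
  -- a common Frobenius element
  have hcommon : ∀ (ℓ : ℕ) [Fact ℓ.Prime] (y : GK K), ∃ r : ℚ,
      (tw (ρ 2) (cyc K 2 ℚ_[2]) (-(u : ℤ)) y).trace = (r : ℚ_[2]) ∧
      (tw (ρ ℓ) (cyc K ℓ ℚ_[ℓ]) (-(u : ℤ)) y).trace = (r : ℚ_[ℓ]) := by
    intro ℓ hℓ y
    obtain ⟨U₁, hU₁n, hU₁o, hU₁⟩ := hU 2
    obtain ⟨U₂, hU₂n, hU₂o, hU₂⟩ := hU ℓ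
    have hn' : (U₁ ⊓ U₂).Normal := inferInstance
    have ho' : IsOpen ((U₁ ⊓ U₂ : Subgroup (GK K)) : Set (GK K)) := by
      rw [Subgroup.coe_inf]
      exact hU₁o.inter hU₂o
    obtain ⟨v, hv, γ, hγ, hyγ⟩ := Pool.Agent.R401.Tr2.exists_frob (U₁ ⊓ U₂) ho' y⁻¹
      (S := B ∪ ({v | ((2 : ℕ) : 𝓞 K) ∈ v.asIdeal} ∪ {v | ((ℓ : ℕ) : 𝓞 K) ∈ v.asIdeal}))
      (hB.union ((Pool.Agent.W352.ChAbs.over_le 2 Nat.prime_two).1.union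
        (Pool.Agent.W352.ChAbs.over_le ℓ (Fact.out : ℓ.Prime)).1))
    rw [Set.mem_union, Set.mem_union, not_or, not_or, Set.mem_setOf_eq, Set.mem_setOf_eq] at hv
    rw [inv_inv] at hyγ
    have hy : y = (y * γ) * γ⁻¹ := by rw [mul_inv_cancel_right]
    have key : ∀ (ℓ' : ℕ) [Fact ℓ'.Prime], ((ℓ' : ℕ) : 𝓞 K) ∉ v.asIdeal →
        (∀ y', (tw (ρ ℓ') (cyc K ℓ' ℚ_[ℓ']) (-(u : ℤ)) ((y * γ) * y')).trace =
          (tw (ρ ℓ') (cyc K ℓ' ℚ_[ℓ']) (-(u : ℤ)) y').trace) →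
        (tw (ρ ℓ') (cyc K ℓ' ℚ_[ℓ']) (-(u : ℤ)) y).trace =
          (((Ideal.absNorm v.asIdeal : ℚ) ^ u)⁻¹ * a v : ℚ) := by
      intro ℓ' _ hℓ' h
      rw [hy, h, Pool.Agent.R401.Sup4.tw_apply, Matrix.trace_smul, htr ℓ' v hv.1 hℓ' γ hγ, neg_neg,
        c_inv, cyc_frob ℓ' ℚ_[ℓ'] hℓ' hγ, smul_eq_mul]
      push_cast
      rw [inv_zpow, zpow_natCast]
    refine ⟨((Ideal.absNorm v.asIdeal : ℚ) ^ u)⁻¹ * a v, ?_, ?_⟩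
    · exact key 2 hv.2.1 fun y' => hU₁ _ hyγ.1 y'
    · exact key ℓ hv.2.2 fun y' => hU₂ _ hyγ.2 y'
  have hφ : ∀ y : GK K, ∃ r : ℚ, (tw (ρ 2) (cyc K 2 ℚ_[2]) (-(u : ℤ)) y).trace = (r : ℚ_[2]) :=
    fun y => by
      obtain ⟨r, hr, -⟩ := hcommon 2 y
      exact ⟨r, hr⟩
  choose φ hφ using hφ
  obtain ⟨U, hUn, hUo, hU2⟩ := hU 2
  refine ⟨u, φ, U, hu, hUn, hUo, ?_, ?_⟩
  · intro x hx y
    have h1 := hU2 x hx y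
    rw [hφ, hφ] at h1
    exact_mod_cast h1
  · intro ℓ hℓ y
    obtain ⟨r, hr1, hr2⟩ := hcommon ℓ y
    have h1 : φ y = r := by
      rw [hφ] at hr1
      exact_mod_cast hr1
    rw [hr2, h1]

end family

section ext

variable {ℓ : ℕ} [Fact ℓ.Prime] {n : ℕ}

/-- extension of scalars -/
noncomputable def ex (ρ : GK K →* GL (Fin n) ℚ_[ℓ]) : GK K →* GL (Fin n) (PadicAlgCl ℓ) :=
  (Matrix.GeneralLinearGroup.map (algebraMap ℚ_[ℓ] (PadicAlgCl ℓ))).comp ρ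

theorem mt_ex (ρ : GK K →* GL (Fin n) ℚ_[ℓ]) (g : GK K) :
    mt (ex ρ) g = (mt ρ g).map (algebraMap ℚ_[ℓ] (PadicAlgCl ℓ)) := rfl

theorem trace_ex (ρ : GK K →* GL (Fin n) ℚ_[ℓ]) (g : GK K) :
    (mt (ex ρ) g).trace = algebraMap ℚ_[ℓ] (PadicAlgCl ℓ) (mt ρ g).trace := by
  rw [mt_ex]
  exact (AddMonoidHom.map_trace (algebraMap ℚ_[ℓ] (PadicAlgCl ℓ)).toAddMonoidHom (mt ρ g)).symm

theorem charpoly_ex (ρ : GK K →* GL (Fin n) ℚ_[ℓ]) (g : GK K) :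
    (mt (ex ρ) g).charpoly = (mt ρ g).charpoly.map (algebraMap ℚ_[ℓ] (PadicAlgCl ℓ)) := by
  rw [mt_ex, Matrix.charpoly_map]

theorem continuous_ex (ρ : GK K →* GL (Fin n) ℚ_[ℓ]) (hρ : Continuous ρ) :
    Continuous (ex ρ) := by
  have h0 : Continuous (algebraMap ℚ_[ℓ] (PadicAlgCl ℓ)) := continuous_algebraMap _ _
  have h1 : Continuous fun g => mt ρ g := Units.continuous_val.comp hρ
  rw [Units.continuous_iff]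
  refine ⟨h1.matrix_map h0, ?_⟩
  have h2 : (Units.val ∘ fun x => ((ex ρ) x)⁻¹) = fun g => mt (ex ρ) g⁻¹ := by
    funext g
    rw [Function.comp_apply, ← map_inv]
    rfl
  have h3 : Continuous fun g => mt (ex ρ) g⁻¹ := (h1.comp continuous_inv).matrix_map h0
  rw [← h2] at h3
  exact h3

theorem cyc_ex (g : GK K) : cyc K ℓ (PadicAlgCl ℓ) g =
    algebraMap ℚ_[ℓ] (PadicAlgCl ℓ) (cyc K ℓ ℚ_[ℓ] g) := rfl

/-- descent of the conclusion -/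
theorem descend (ρ : GK K →* GL (Fin n) ℚ_[ℓ]) (w : ℕ)
    (h : (2 : ℤ) ∣ w ∧ ∀ u : ℤ, (w : ℤ) = 2 * u →
      ∃ U : Subgroup (GK K), U.Normal ∧ IsOpen (U : Set (GK K)) ∧
        ∀ x ∈ U, ∀ y, (tw (ex ρ) (cyc K ℓ (PadicAlgCl ℓ)) (-u) (x * y)).trace =
          (tw (ex ρ) (cyc K ℓ (PadicAlgCl ℓ)) (-u) y).trace) :
    (2 : ℤ) ∣ w ∧ ∀ u : ℤ, (w : ℤ) = 2 * u →
      ∃ U : Subgroup (GK K), U.Normal ∧ IsOpen (U : Set (GK K)) ∧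
        ∀ x ∈ U, ∀ y, (tw ρ (cyc K ℓ ℚ_[ℓ]) (-u) (x * y)).trace =
          (tw ρ (cyc K ℓ ℚ_[ℓ]) (-u) y).trace := by
  refine ⟨h.1, fun u hu => ?_⟩
  obtain ⟨U, h1, h2, h3⟩ := h.2 u hu
  refine ⟨U, h1, h2, fun x hx y => ?_⟩
  have h4 : ∀ g, (tw (ex ρ) (cyc K ℓ (PadicAlgCl ℓ)) (-u) g).trace =
      algebraMap ℚ_[ℓ] (PadicAlgCl ℓ) (tw ρ (cyc K ℓ ℚ_[ℓ]) (-u) g).trace := by
    intro g
    rw [Pool.Agent.R401.Sup4.tw_apply, Pool.Agent.R401.Sup4.tw_apply, Matrix.trace_smul,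
      Matrix.trace_smul, trace_ex, cyc_ex, smul_eq_mul, smul_eq_mul, map_mul, map_zpow₀]
  have h5 := h3 x hx y
  rw [h4, h4] at h5
  exact (algebraMap ℚ_[ℓ] (PadicAlgCl ℓ)).injective h5

end ext

section dens

/-- a frequent bound for the places which are not good -/
theorem freq {P : HeightOneSpectrum (𝓞 K) → Prop} {S : Set (HeightOneSpectrum (𝓞 K))}
    (hS : S.Finite) {θ ε : ℝ} (hε : 0 < ε) (hP : ∃ᶠ N : ℕ in atTop, dens P N ≤ θ)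
    {Q : HeightOneSpectrum (𝓞 K) → Prop} (hQ : ∀ v, v ∉ S → ¬ P v → ¬ Q v) :
    ∃ᶠ N : ℕ in atTop, dens Q N ≤ θ + ε := by
  have h1 : ∀ᶠ N : ℕ in atTop, dens (fun v : HeightOneSpectrum (𝓞 K) => v ∈ S) N ≤ ε :=
    (dens_fin (fun v : HeightOneSpectrum (𝓞 K) => v ∈ S) hS).eventually (ge_mem_nhds hε)
  refine (hP.and_eventually h1).mono ?_
  rintro N ⟨h2, h3⟩
  have h4 : dens Q N ≤ dens (fun v : HeightOneSpectrum (𝓞 K) => P v ∨ v ∈ S) N := by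
    refine Pool.Agent.R401.Eng.dens_le ?_ N
    intro v hv
    by_contra hcon
    rw [not_or] at hcon
    exact hQ v hcon.2 hcon.1 hv
  have h5 := h4.trans (card_or _ _ N)
  linarith

/-- the integers in an interval -/
theorem finite_Y (F : Type) [Field F] (C : ℝ) : {y : F | ∃ b : ℤ, |(b : ℝ)| ≤ |C| ∧ y = b}.Finite := by
  classical
  obtain ⟨m, hm⟩ := exists_nat_ge |C|
  have h1 : {y : F | ∃ b : ℤ, |(b : ℝ)| ≤ |C| ∧ y = b} ⊆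
      ((Finset.Icc (-(m : ℤ)) m).image (fun b : ℤ => (b : F)) : Finset F) := by
    rintro _ ⟨b, hb, rfl⟩
    rw [Finset.mem_coe, Finset.mem_image]
    refine ⟨b, ?_, rfl⟩
    rw [Finset.mem_Icc]
    have h2 := abs_le.1 (hb.trans hm)
    constructor
    · exact_mod_cast h2.1
    · exact_mod_cast h2.2
  exact (Finset.finite_toSet _).subset h1

/-- the quotient -/
theorem exists_quot {N w : ℕ} (hN : 0 < N) {x : ℤ} {C : ℝ} (hd : (N : ℤ) ^ w ∣ x ^ 2)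
    (hC : (x : ℝ) ^ 2 ≤ C * (N : ℝ) ^ w) : ∃ b : ℤ, |(b : ℝ)| ≤ |C| ∧ x ^ 2 = (N : ℤ) ^ w * b := by
  obtain ⟨b, hb⟩ := hd
  refine ⟨b, ?_, hb⟩
  have h2 : (x : ℝ) ^ 2 = (N : ℝ) ^ w * b := by exact_mod_cast hb
  have h3 : (0 : ℝ) < (N : ℝ) ^ w := by
    have : (0 : ℝ) < N := by exact_mod_cast hN
    positivity
  have h4 : 0 ≤ (b : ℝ) := by
    by_contra hcon
    rw [not_le] at hcon
    have := mul_neg_of_pos_of_neg h3 hcon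
    rw [← h2] at this
    exact absurd this (not_lt.2 (sq_nonneg _))
  rw [abs_of_nonneg h4]
  refine le_trans ?_ (le_abs_self C)
  rw [h2, mul_comm C] at hC
  exact le_of_mul_le_mul_left hC h3

end dens

end Pool.Agent.D0H45.TH
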