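import Pool.Agent.D0H45.TH.OneAB
import Pool.Agent.D0H74.TH.Burn
import Pool.Agent.D0H13.TH.Alga
import Pool.Agent.D0H23.TH.Irr
import Pool.Agent.D0H23.TH.Algb
import Pool.Agent.D0H70.TH.Meas
import Pool.Agent.D0H70.TH.Poly
import Pool.Agent.D0H70.TH.Conn
import Pool.Agent.D0H22.TH.Sqrt
import Pool.Agent.D0H82.TH.Cheb
import Pool.Agent.D0H82.TH.Deg1

/-!
# PROJECT TH: the main theorems
-/

set_option autoImplicit false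
set_option maxHeartbeats 400000

namespace Pool.Agent.D0H45.TH

open Module NumberField Filter Topology IsDedekindDomain MeasureTheory
open Pool.Agent.W401.Cheb Pool.Agent.R401.Img Pool.Agent.R401.Sup Pool.Agent.R401.Sup3
open Pool.Agent.R401.Sup4 Pool.Agent.R401.Sup2 Pool.Agent.D0H74.TH Pool.Agent.D0H13.TH
open Pool.Agent.D0H23.TH Pool.Agent.D0H70.TH Pool.Agent.D0H22.TH Pool.Agent.D0H82.TH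

variable {K : Type} [Field K] [NumberField K] {n : ℕ}

/-- traces -/
theorem familyA (hn : 0 < n) (ρ : ∀ (ℓ : ℕ) [Fact ℓ.Prime], GK K →* GL (Fin n) ℚ_[ℓ])
    (hρ : ∀ (ℓ : ℕ) [Fact ℓ.Prime], Continuous (ρ ℓ))
    (B : Set (HeightOneSpectrum (𝓞 K))) (hB : B.Finite) (a : HeightOneSpectrum (𝓞 K) → ℤ) (w : ℕ)
    (htr : ∀ (ℓ : ℕ) [Fact ℓ.Prime], ∀ v, v ∉ B → (ℓ : 𝓞 K) ∉ v.asIdeal → ∀ g, IsFrob v g →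
      (mt (ρ ℓ) g⁻¹).trace = (a v : ℚ_[ℓ]) ∧
      (Ideal.absNorm v.asIdeal : ℚ_[ℓ]) ^ w * (mt (ρ ℓ) g).trace = (a v : ℚ_[ℓ]))
    (C : ℝ) (hC : ∀ v, v ∉ B → (a v : ℝ) ^ 2 ≤ C * (Ideal.absNorm v.asIdeal : ℝ) ^ w) (d : ℕ)
    (hd : 0 < d) (θ : ℝ) (hθ : θ * n ^ 2 < 2)
    (hP : ∃ᶠ N : ℕ in atTop, dens (fun v : HeightOneSpectrum (𝓞 K) =>
      ¬ (Ideal.absNorm v.asIdeal : ℤ) ^ w ∣ d * a v ^ 2) N ≤ θ) :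
    ∃ (u : ℕ) (φ : GK K → ℚ) (U : Subgroup (GK K)), w = 2 * u ∧ U.Normal ∧
      IsOpen (U : Set (GK K)) ∧ (∀ x ∈ U, ∀ y, φ (x * y) = φ y) ∧
      ∀ (ℓ : ℕ) [Fact ℓ.Prime] (y : GK K),
        (tw (ρ ℓ) (cyc K ℓ ℚ_[ℓ]) (-(u : ℤ)) y).trace = (φ y : ℚ_[ℓ]) :=
  family ρ B hB a w (fun ℓ _ v hv hℓ g hg => (htr ℓ v hv hℓ g hg).1) fun ℓ _ =>
    oneA t_UNI t_SQRT t_DEG1 t_ALGA t_MEAS t_POLY t_CHEB t_CONN hn (ρ ℓ) (hρ ℓ) B hB a w (htr ℓ) C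
      hC d hd θ hθ hP

/-- characteristic polynomials -/
theorem familyB (hn : 0 < n) (ρ : ∀ (ℓ : ℕ) [Fact ℓ.Prime], GK K →* GL (Fin n) ℚ_[ℓ])
    (hρ : ∀ (ℓ : ℕ) [Fact ℓ.Prime], Continuous (ρ ℓ))
    (B : Set (HeightOneSpectrum (𝓞 K))) (hB : B.Finite)
    (P : HeightOneSpectrum (𝓞 K) → Polynomial ℤ) (w : ℕ)
    (htr : ∀ (ℓ : ℕ) [Fact ℓ.Prime], ∀ v, v ∉ B → (ℓ : 𝓞 K) ∉ v.asIdeal → ∀ g, IsFrob v g →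
      (mt (ρ ℓ) g⁻¹).charpoly = (P v).map (Int.castRingHom ℚ_[ℓ]))
    (C : ℝ) (hC : ∀ v, v ∉ B → ∀ j ≤ n,
      ((P v).coeff (n - j) : ℝ) ^ 2 ≤ C * (Ideal.absNorm v.asIdeal : ℝ) ^ (j * w)) (d : ℕ)
    (hd : 0 < d) (θ : ℝ) (hθ : θ * n < 1)
    (hP : ∃ᶠ N : ℕ in atTop, dens (fun v : HeightOneSpectrum (𝓞 K) =>
      ¬ ∀ j ≤ n, (Ideal.absNorm v.asIdeal : ℤ) ^ (j * w) ∣ d * (P v).coeff (n - j) ^ 2) N ≤ θ) :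
    ∃ (u : ℕ) (φ : GK K → ℚ) (U : Subgroup (GK K)), w = 2 * u ∧ U.Normal ∧
      IsOpen (U : Set (GK K)) ∧ (∀ x ∈ U, ∀ y, φ (x * y) = φ y) ∧
      ∀ (ℓ : ℕ) [Fact ℓ.Prime] (y : GK K),
        (tw (ρ ℓ) (cyc K ℓ ℚ_[ℓ]) (-(u : ℤ)) y).trace = (φ y : ℚ_[ℓ]) := by
  have hne : Nonempty (Fin n) := ⟨⟨0, hn⟩⟩
  refine family ρ B hB (fun v => -(P v).coeff (n - 1)) w (fun ℓ _ v hv hℓ g hg => ?_) fun ℓ _ =>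
    oneB t_UNI t_SQRT t_DEG1 (t_ALGB (t_IRR t_BURN)) t_MEAS t_POLY t_CHEB t_CONN hn (ρ ℓ) (hρ ℓ) B
      hB P w (htr ℓ) C hC d hd θ hθ hP
  rw [Matrix.trace_eq_neg_charpoly_coeff, htr ℓ v hv hℓ g hg, Fintype.card_fin,
    Polynomial.coeff_map, eq_intCast]
  push_cast
  rfl

end Pool.Agent.D0H45.TH
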