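import Pool.Agent.D0H45.TH.CoreB

/-!
# PROJECT TH: assembly, part 4 (one prime `ℓ`)
-/

set_option autoImplicit false
set_option maxHeartbeats 400000

namespace Pool.Agent.D0H45.TH

open Module NumberField Filter Topology IsDedekindDomain MeasureTheory
open Pool.Agent.W401.Cheb Pool.Agent.R401.Img Pool.Agent.R401.Sup Pool.Agent.R401.Sup3
open Pool.Agent.R401.Sup4 Pool.Agent.R401.Sup2

section dual

variable {G : Type} [Group G] {F : Type} [Field F] {n : ℕ}

theorem mt_one' (ρ : G →* GL (Fin n) F) : mt ρ 1 = 1 := by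
  unfold Pool.Agent.R401.Img.mt
  rw [map_one, Units.val_one]

/-- the contragredient -/
noncomputable def dl (ρ : G →* GL (Fin n) F) : G →* GL (Fin n) F where
  toFun g := ⟨(mt ρ g⁻¹).transpose, (mt ρ g).transpose, by
    rw [← Matrix.transpose_mul, ← mt_mul, mul_inv_cancel, mt_one', Matrix.transpose_one], by
    rw [← Matrix.transpose_mul, ← mt_mul, inv_mul_cancel, mt_one', Matrix.transpose_one]⟩
  map_one' := by
    apply Units.ext
    change (mt ρ (1 : G)⁻¹).transpose = 1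
    rw [inv_one, mt_one', Matrix.transpose_one]
  map_mul' g h := by
    apply Units.ext
    change (mt ρ (g * h)⁻¹).transpose = (mt ρ g⁻¹).transpose * (mt ρ h⁻¹).transpose
    rw [mul_inv_rev, mt_mul, Matrix.transpose_mul]

theorem mt_dl (ρ : G →* GL (Fin n) F) (g : G) : mt (dl ρ) g = (mt ρ g⁻¹).transpose := rfl

theorem trace_dl (ρ : G →* GL (Fin n) F) (g : G) : (mt (dl ρ) g).trace = (mt ρ g⁻¹).trace := by
  rw [mt_dl, Matrix.trace_transpose]

theorem charpoly_dl (ρ : G →* GL (Fin n) F) (g : G) :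
    (mt (dl ρ) g).charpoly = (mt ρ g⁻¹).charpoly := by
  rw [mt_dl, Matrix.charpoly_transpose]

theorem continuous_dl [TopologicalSpace G] [IsTopologicalGroup G] [TopologicalSpace F]
    (ρ : G →* GL (Fin n) F) (hρ : Continuous ρ) : Continuous (dl ρ) := by
  have h1 : Continuous fun g => mt ρ g := Units.continuous_val.comp hρ
  rw [Units.continuous_iff]
  exact ⟨(h1.comp continuous_inv).matrix_transpose, h1.matrix_transpose⟩

end dual

variable {K : Type} [Field K] [NumberField K]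

/-- closed sets which contain the Frobenius elements -/
theorem of_frob {P : GK K → Prop} (hP : IsClosed {g | P g}) {S : Set (HeightOneSpectrum (𝓞 K))}
    (hS : S.Finite) (h : ∀ v ∉ S, ∀ g, IsFrob v g → P g) (g : GK K) : P g := by
  by_contra hg
  have h1 : (fun u => g * u) ⁻¹' {g | P g}ᶜ ∈ 𝓝 (1 : GK K) := by
    apply (hP.isOpen_compl.preimage (continuous_const.mul continuous_id)).mem_nhds
    simpa using hg
  obtain ⟨s, hs1, hs2, hs3⟩ := mem_nhds_iff.1 h1
  obtain ⟨U, hU⟩ := ProfiniteGrp.exist_openNormalSubgroup_sub_open_nhds_of_one hs2 hs3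
  have hUn : (U : Subgroup (GK K)).Normal := U.isNormal'
  obtain ⟨v, hv, γ, hγ, hgγ⟩ := Pool.Agent.R401.Tr2.exists_frob (U : Subgroup (GK K)) U.isOpen' g hS
  have h2 := hs1 (hU hgγ)
  rw [Set.mem_preimage, mul_inv_cancel_left] at h2
  exact h2 (h v hv γ hγ)

section one

variable {ℓ : ℕ} [Fact ℓ.Prime] {F : Type} [NormedField F] [NormedAlgebra ℚ_[ℓ] F] [IsAlgClosed F]
  [IsUltrametricDist F] {n : ℕ}

theorem oneOf (hUNI : S_UNI) (hSQRT : S_SQRT) (hDEG1 : S_DEG1) (hn : 0 < n)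
    (ρ : GK K →* GL (Fin n) F) (B : Set (HeightOneSpectrum (𝓞 K))) (hB : B.Finite)
    (a : HeightOneSpectrum (𝓞 K) → ℤ) (w : ℕ)
    (htr : ∀ v, v ∉ B → (ℓ : 𝓞 K) ∉ v.asIdeal → ∀ g, IsFrob v g → (mt ρ g⁻¹).trace = (a v : F))
    (hcore : ∀ (U₀ : Subgroup (GK K)) (ψ : GK K → F), U₀.Normal → IsOpen (U₀ : Set (GK K)) →
      Tw ψ U₀ → ContinuousOn ψ (U₀ : Set (GK K)) → (∀ u ∈ U₀, ψ u ^ 2 * cyc K ℓ F u ^ w = 1) →
      ∃ U : Subgroup (GK K), U.Normal ∧ IsOpen (U : Set (GK K)) ∧ U ≤ U₀ ∧ Tw ψ U ∧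
        ∀ u ∈ U, IsNilpotent (ψ u • act (dl ρ) u - 1)) :
    (2 : ℤ) ∣ w ∧ ∀ u : ℤ, (w : ℤ) = 2 * u →
      ∃ U : Subgroup (GK K), U.Normal ∧ IsOpen (U : Set (GK K)) ∧
        ∀ x ∈ U, ∀ y, (tw ρ (cyc K ℓ F) (-u) (x * y)).trace = (tw ρ (cyc K ℓ F) (-u) y).trace := by
  classical
  have hchar : CharZero F := charZero_of_injective_algebraMap (algebraMap ℚ_[ℓ] F).injective
  constructor
  · obtain ⟨U₀, ψ, hU₀n, hU₀o, hψ, hψc, hψ2⟩ := hSQRT F (GK K) (cyc K ℓ F) (-(w : ℤ))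
      (continuous_cyc K ℓ F)
    obtain ⟨U, hUn, hUo, hUU, hT, hnil⟩ := hcore U₀ ψ hU₀n hU₀o hψ hψc (by
      intro u hu
      rw [hψ2 u hu, zpow_neg, zpow_natCast]
      exact inv_mul_cancel₀ (pow_ne_zero _ (c_ne _ u)))
    obtain ⟨v, hv, hp, γ, hγU, hγ⟩ := hDEG1 K U hUn hUo (B ∪ {v | (ℓ : 𝓞 K) ∈ v.asIdeal})
      (hB.union (Pool.Agent.W352.ChAbs.over_le ℓ (Fact.out : ℓ.Prime)).1)
    rw [Set.mem_union, not_or, Set.mem_setOf_eq] at hv
    have h1 : LinearMap.trace F (Fin n → F) (ψ γ • act (dl ρ) γ - 1) = 0 := by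
      have := LinearMap.isNilpotent_trace_of_isNilpotent (hnil γ hγU)
      exact this.eq_zero
    rw [map_sub, map_smul, trace_act, trace_dl, htr v hv.1 hv.2 γ hγ, LinearMap.trace_one,
      finrank_fin_fun, sub_eq_zero, smul_eq_mul] at h1
    set p : ℕ := Ideal.absNorm v.asIdeal with hpdef
    have hc : cyc K ℓ F γ = p := cyc_frob ℓ F hv.2 hγ
    have h2 := hψ2 γ (hUU hγU)
    rw [hc, zpow_neg, zpow_natCast] at h2
    have hp0 : (p : F) ≠ 0 := by exact_mod_cast hp.ne_zero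
    have h3 : ((a v : ℤ) : F) ^ 2 = (n : F) ^ 2 * (p : F) ^ w := by
      rw [← h1, mul_pow, h2]
      field_simp
    have h4 : (a v) ^ 2 = (n : ℤ) ^ 2 * (p : ℤ) ^ w := by exact_mod_cast h3
    have hpp : Fact p.Prime := ⟨hp⟩
    have h5 := congrArg (padicValInt p) h4
    have ha0 : a v ≠ 0 := by
      intro h0
      rw [h0] at h4
      have : (0 : ℤ) < (n : ℤ) ^ 2 * (p : ℤ) ^ w := by
        have h6 : (0 : ℤ) < p := by exact_mod_cast hp.pos
        have h7 : (0 : ℤ) < n := by exact_mod_cast hn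
        positivity
      rw [← h4] at this
      simp at this
    have hn0 : ((n : ℤ) ^ 2) ≠ 0 := by
      have : (n : ℤ) ≠ 0 := by exact_mod_cast hn.ne'
      positivity
    have hpw : ((p : ℤ) ^ w) ≠ 0 := by
      have : (p : ℤ) ≠ 0 := by exact_mod_cast hp.ne_zero
      positivity
    rw [padicValInt.mul hn0 hpw, pow_two, pow_two, padicValInt.mul ha0 ha0,
      padicValInt.mul (by exact_mod_cast hn.ne') (by exact_mod_cast hn.ne')] at h5
    have h6 : padicValInt p ((p : ℤ) ^ w) = w := by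
      have : ((p : ℤ) ^ w) = ((p ^ w : ℕ) : ℤ) := by push_cast; rfl
      rw [this, padicValInt.of_nat, padicValNat.prime_pow]
    rw [h6] at h5
    omega
  · intro u hu
    have hc0 : ∀ g, cyc K ℓ F g ≠ 0 := c_ne _
    have hTw : Tw (fun g => cyc K ℓ F g ^ (-u)) (⊤ : Subgroup (GK K)) := by
      refine ⟨?_, ?_, ?_, ?_⟩
      · rw [map_one, one_zpow]
      · intro x _ y _
        rw [map_mul, mul_zpow]
      · intro x _ g
        rw [map_mul, map_mul, c_inv]
        congr 1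
        field_simp [hc0 g]
      · intro x _
        exact zpow_ne_zero _ (hc0 x)
    obtain ⟨U, hUn, hUo, -, hT, hnil⟩ := hcore ⊤ (fun g => cyc K ℓ F g ^ (-u)) inferInstance
      isOpen_univ hTw ((continuous_cyc K ℓ F).zpow₀ _ fun x => Or.inl (hc0 x)).continuousOn (by
        intro g _
        have h1 : (cyc K ℓ F g ^ (-u)) ^ 2 = cyc K ℓ F g ^ (-(w : ℤ)) := by
          rw [← zpow_natCast, ← zpow_mul]
          congr 1
          rw [hu]
          push_cast
          ring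
        rw [h1, zpow_neg, zpow_natCast]
        exact inv_mul_cancel₀ (pow_ne_zero _ (hc0 g)))
    refine ⟨U, hUn, hUo, ?_⟩
    intro x hx y
    have h1 := hUNI F (Fin n → F) (GK K) (act (dl ρ)) U _ hUn hT hnil y⁻¹ x⁻¹ (U.inv_mem hx)
    rw [trace_smul_act, trace_act, trace_dl, trace_dl, mul_inv_rev, inv_inv, inv_inv, c_inv] at h1
    rw [Pool.Agent.R401.Sup4.tw_apply, Pool.Agent.R401.Sup4.tw_apply, Matrix.trace_smul,
      Matrix.trace_smul, smul_eq_mul, smul_eq_mul, neg_neg, map_mul, mul_zpow, ← h1, inv_zpow,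
      zpow_neg, inv_inv]
    ring

end one

end Pool.Agent.D0H45.TH
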