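import Pool.Agent.D0H45.TH.Fin

/-!
# PROJECT TH: assembly, part 6
-/

set_option autoImplicit false
set_option maxHeartbeats 400000

namespace Pool.Agent.D0H45.TH

open Module NumberField Filter Topology IsDedekindDomain MeasureTheory
open Pool.Agent.W401.Cheb Pool.Agent.R401.Img Pool.Agent.R401.Sup Pool.Agent.R401.Sup3
open Pool.Agent.R401.Sup4 Pool.Agent.R401.Sup2

variable {K : Type} [Field K] [NumberField K]

/-- the quotient, with a denominator -/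
theorem exists_quot' {N w d : ℕ} (hN : 0 < N) (hd : 0 < d) {x : ℤ} {C : ℝ}
    (hdv : (N : ℤ) ^ w ∣ d * x ^ 2) (hC : (x : ℝ) ^ 2 ≤ C * (N : ℝ) ^ w) :
    ∃ b : ℤ, |(b : ℝ)| ≤ |d * C| ∧ (d : ℤ) * x ^ 2 = (N : ℤ) ^ w * b := by
  obtain ⟨b, hb⟩ := hdv
  refine ⟨b, ?_, hb⟩
  have h2 : (d : ℝ) * (x : ℝ) ^ 2 = (N : ℝ) ^ w * b := by exact_mod_cast hb
  have h3 : (0 : ℝ) < (N : ℝ) ^ w := by
    have : (0 : ℝ) < N := by exact_mod_cast hN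
    positivity
  have hd' : (0 : ℝ) < d := by exact_mod_cast hd
  have h4 : 0 ≤ (b : ℝ) := by
    by_contra hcon
    rw [not_le] at hcon
    have := mul_neg_of_pos_of_neg h3 hcon
    rw [← h2] at this
    exact absurd this (not_lt.2 (by positivity))
  rw [abs_of_nonneg h4]
  refine le_trans ?_ (le_abs_self _)
  have h5 : (N : ℝ) ^ w * b ≤ (N : ℝ) ^ w * (d * C) := by
    rw [← h2]
    calc (d : ℝ) * (x : ℝ) ^ 2 ≤ d * (C * (N : ℝ) ^ w) := by gcongr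
      _ = _ := by ring
  exact le_of_mul_le_mul_left h5 h3

/-- the rational numbers with denominator `d` in an interval -/
theorem finite_Yd (F : Type) [Field F] (d : ℕ) (C : ℝ) :
    {y : F | ∃ b : ℤ, |(b : ℝ)| ≤ |C| ∧ y = b / d}.Finite := by
  refine ((finite_Y F C).image fun y => y / (d : F)).subset ?_
  rintro _ ⟨b, hb, rfl⟩
  exact ⟨b, ⟨b, hb, rfl⟩, rfl⟩

theorem absNorm_pos (v : HeightOneSpectrum (𝓞 K)) : 0 < Ideal.absNorm v.asIdeal :=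
  Nat.pos_of_ne_zero (fun h0 => v.ne_bot (Ideal.absNorm_eq_zero_iff.1 h0))

section one

variable {ℓ : ℕ} [Fact ℓ.Prime] {n : ℕ}

/-- traces, one prime -/
theorem oneA (hUNI : S_UNI) (hSQRT : S_SQRT) (hDEG1 : S_DEG1) (hALGA : S_ALGA) (hMEAS : S_MEAS)
    (hPOLY : S_POLY) (hCHEB : S_CHEB) (hCONN : S_CONN) (hn : 0 < n)
    (ρ : GK K →* GL (Fin n) ℚ_[ℓ]) (hρ : Continuous ρ)
    (B : Set (HeightOneSpectrum (𝓞 K))) (hB : B.Finite) (a : HeightOneSpectrum (𝓞 K) → ℤ) (w : ℕ)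
    (htr : ∀ v, v ∉ B → (ℓ : 𝓞 K) ∉ v.asIdeal → ∀ g, IsFrob v g →
      (mt ρ g⁻¹).trace = (a v : ℚ_[ℓ]) ∧
      (Ideal.absNorm v.asIdeal : ℚ_[ℓ]) ^ w * (mt ρ g).trace = (a v : ℚ_[ℓ]))
    (C : ℝ) (hC : ∀ v, v ∉ B → (a v : ℝ) ^ 2 ≤ C * (Ideal.absNorm v.asIdeal : ℝ) ^ w) (d : ℕ)
    (hd : 0 < d) (θ : ℝ) (hθ : θ * n ^ 2 < 2)
    (hP : ∃ᶠ N : ℕ in atTop, dens (fun v : HeightOneSpectrum (𝓞 K) =>
      ¬ (Ideal.absNorm v.asIdeal : ℤ) ^ w ∣ d * a v ^ 2) N ≤ θ) :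
    (2 : ℤ) ∣ w ∧ ∀ u : ℤ, (w : ℤ) = 2 * u →
      ∃ U : Subgroup (GK K), U.Normal ∧ IsOpen (U : Set (GK K)) ∧
        ∀ x ∈ U, ∀ y, (tw ρ (cyc K ℓ ℚ_[ℓ]) (-u) (x * y)).trace =
          (tw ρ (cyc K ℓ ℚ_[ℓ]) (-u) y).trace := by
  classical
  apply descend
  set S : Set (HeightOneSpectrum (𝓞 K)) := B ∪ {v | (ℓ : 𝓞 K) ∈ v.asIdeal} with hS
  have hSf : S.Finite := hB.union (Pool.Agent.W352.ChAbs.over_le ℓ (Fact.out : ℓ.Prime)).1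
  set i := algebraMap ℚ_[ℓ] (PadicAlgCl ℓ) with hi
  refine oneOf hUNI hSQRT hDEG1 hn (ex ρ) B hB a w (by
    intro v hv hℓ g hg
    rw [trace_ex, (htr v hv hℓ g hg).1, map_intCast]) ?_
  intro U₀ ψ hU₀n hU₀o hψ hψc hψ2
  set ε : ℝ := (2 - θ * n ^ 2) / (2 * (n ^ 2 + 1)) with hε
  have hε0 : 0 < ε := div_pos (by linarith) (by positivity)
  have hθε : (θ + ε) * n ^ 2 < 2 := by
    have h1 : ε * (n ^ 2 + 1) = (2 - θ * n ^ 2) / 2 := by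
      rw [hε]
      field_simp
    have h2 : (θ + ε) * n ^ 2 = θ * n ^ 2 + ε * (n ^ 2 + 1) - ε := by ring
    rw [h2, h1]
    linarith
  refine coreA hALGA hMEAS hPOLY hCHEB hCONN hn (dl (ex ρ)) (continuous_dl _ (continuous_ex ρ hρ))
    (cyc K ℓ (PadicAlgCl ℓ)) (continuous_cyc K ℓ _) w
    {y | ∃ b : ℤ, |(b : ℝ)| ≤ |d * C| ∧ y = b / d} (finite_Yd _ d _) (θ + ε) hθε ?_ U₀ ψ hU₀n hU₀o
    hψ hψc hψ2 ?_
  · refine freq hSf hε0 hP ?_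
    intro v hv hdv hQ
    obtain ⟨g, hg, hno⟩ := hQ
    rw [hS, Set.mem_union, not_or, Set.mem_setOf_eq] at hv
    rw [not_not] at hdv
    apply hno
    obtain ⟨b, hb1, hb2⟩ := exists_quot' (absNorm_pos v) hd hdv (hC v hv.1)
    refine ⟨(b : PadicAlgCl ℓ) / d, ⟨b, hb1, rfl⟩, ?_⟩
    rw [trace_dl, trace_ex, (htr v hv.1 hv.2 g hg).1, map_intCast, cyc_frob ℓ _ hv.2 hg]
    have hd' : (d : PadicAlgCl ℓ) ≠ 0 := by exact_mod_cast hd.ne'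
    have h3 : (d : PadicAlgCl ℓ) * ((a v : ℤ) : PadicAlgCl ℓ) ^ 2 =
        (Ideal.absNorm v.asIdeal : PadicAlgCl ℓ) ^ w * b := by exact_mod_cast congrArg (Int.cast : ℤ → PadicAlgCl ℓ) hb2
    rw [← mul_div_assoc, eq_div_iff hd', mul_comm, h3]
  · refine of_frob ?_ hSf ?_
    · have h0 : Continuous fun g => mt (dl (ex ρ)) g :=
        Units.continuous_val.comp (continuous_dl _ (continuous_ex ρ hρ))
      exact isClosed_eq h0.matrix_trace (((continuous_cyc K ℓ _).pow w).mul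
        (h0.comp continuous_inv).matrix_trace)
    · intro v hv g hg
      rw [hS, Set.mem_union, not_or, Set.mem_setOf_eq] at hv
      have h1 := htr v hv.1 hv.2 g hg
      rw [trace_dl, trace_dl, inv_inv, trace_ex, trace_ex, h1.1, ← h1.2, cyc_frob ℓ _ hv.2 hg,
        map_mul, map_pow, map_natCast]

/-- characteristic polynomials, one prime -/
theorem oneB (hUNI : S_UNI) (hSQRT : S_SQRT) (hDEG1 : S_DEG1) (hALGB : S_ALGB) (hMEAS : S_MEAS)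
    (hPOLY : S_POLY) (hCHEB : S_CHEB) (hCONN : S_CONN) (hn : 0 < n)
    (ρ : GK K →* GL (Fin n) ℚ_[ℓ]) (hρ : Continuous ρ)
    (B : Set (HeightOneSpectrum (𝓞 K))) (hB : B.Finite)
    (P : HeightOneSpectrum (𝓞 K) → Polynomial ℤ) (w : ℕ)
    (htr : ∀ v, v ∉ B → (ℓ : 𝓞 K) ∉ v.asIdeal → ∀ g, IsFrob v g →
      (mt ρ g⁻¹).charpoly = (P v).map (Int.castRingHom ℚ_[ℓ]))
    (C : ℝ) (hC : ∀ v, v ∉ B → ∀ j ≤ n,
      ((P v).coeff (n - j) : ℝ) ^ 2 ≤ C * (Ideal.absNorm v.asIdeal : ℝ) ^ (j * w)) (d : ℕ)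
    (hd : 0 < d) (θ : ℝ) (hθ : θ * n < 1)
    (hP : ∃ᶠ N : ℕ in atTop, dens (fun v : HeightOneSpectrum (𝓞 K) =>
      ¬ ∀ j ≤ n, (Ideal.absNorm v.asIdeal : ℤ) ^ (j * w) ∣ d * (P v).coeff (n - j) ^ 2) N ≤ θ) :
    (2 : ℤ) ∣ w ∧ ∀ u : ℤ, (w : ℤ) = 2 * u →
      ∃ U : Subgroup (GK K), U.Normal ∧ IsOpen (U : Set (GK K)) ∧
        ∀ x ∈ U, ∀ y, (tw ρ (cyc K ℓ ℚ_[ℓ]) (-u) (x * y)).trace =
          (tw ρ (cyc K ℓ ℚ_[ℓ]) (-u) y).trace := by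
  classical
  apply descend
  set S : Set (HeightOneSpectrum (𝓞 K)) := B ∪ {v | (ℓ : 𝓞 K) ∈ v.asIdeal} with hS
  have hSf : S.Finite := hB.union (Pool.Agent.W352.ChAbs.over_le ℓ (Fact.out : ℓ.Prime)).1
  have hne : Nonempty (Fin n) := ⟨⟨0, hn⟩⟩
  refine oneOf hUNI hSQRT hDEG1 hn (ex ρ) B hB (fun v => -(P v).coeff (n - 1)) w (by
    intro v hv hℓ g hg
    rw [trace_ex, Matrix.trace_eq_neg_charpoly_coeff, htr v hv hℓ g hg, Fintype.card_fin,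
      Polynomial.coeff_map, map_neg, eq_intCast, map_intCast]
    push_cast
    rfl) ?_
  intro U₀ ψ hU₀n hU₀o hψ hψc hψ2
  set ε : ℝ := (1 - θ * n) / (2 * (n + 1)) with hε
  have hε0 : 0 < ε := div_pos (by linarith) (by positivity)
  have hθε : (θ + ε) * n < 1 := by
    have h1 : ε * (n + 1) = (1 - θ * n) / 2 := by
      rw [hε]
      field_simp
    have h2 : (θ + ε) * n = θ * n + ε * (n + 1) - ε := by ring
    rw [h2, h1]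
    linarith
  refine coreB hALGB hMEAS hPOLY hCHEB hCONN (dl (ex ρ)) (continuous_dl _ (continuous_ex ρ hρ))
    (cyc K ℓ (PadicAlgCl ℓ)) (continuous_cyc K ℓ _) w
    {y | ∃ b : ℤ, |(b : ℝ)| ≤ |d * C| ∧ y = b / d} (finite_Yd _ d _) (θ + ε) hθε ?_ U₀ ψ hU₀n hU₀o
    hψ hψc hψ2
  refine freq hSf hε0 hP ?_
  intro v hv hdv hQ
  obtain ⟨g, hg, hno⟩ := hQ
  rw [hS, Set.mem_union, not_or, Set.mem_setOf_eq] at hv
  rw [not_not] at hdv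
  apply hno
  intro j
  have hj : (j : ℕ) ≤ n := by omega
  obtain ⟨b, hb1, hb2⟩ := exists_quot' (absNorm_pos v) hd (hdv j hj) (hC v hv.1 j hj)
  refine ⟨(b : PadicAlgCl ℓ) / d, ⟨b, hb1, rfl⟩, ?_⟩
  rw [charpoly_dl, charpoly_ex, htr v hv.1 hv.2 g hg, Polynomial.coeff_map, Polynomial.coeff_map,
    eq_intCast, map_intCast, cyc_frob ℓ _ hv.2 hg]
  have hd' : (d : PadicAlgCl ℓ) ≠ 0 := by exact_mod_cast hd.ne'
  have h3 : (d : PadicAlgCl ℓ) * (((P v).coeff (n - j) : ℤ) : PadicAlgCl ℓ) ^ 2 =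
      (Ideal.absNorm v.asIdeal : PadicAlgCl ℓ) ^ ((j : ℕ) * w) * b := by
    exact_mod_cast congrArg (Int.cast : ℤ → PadicAlgCl ℓ) hb2
  rw [← mul_div_assoc, eq_div_iff hd', mul_comm, h3]

end one

end Pool.Agent.D0H45.TH
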