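import Pool.Agent.D0H45.TH.Stm
import Pool.Agent.R401.Tr6

/-!
# PROJECT TH (helper45): the two arithmetic modules
-/

set_option autoImplicit false

namespace Pool.Agent.D0H45.TH

open Module NumberField Filter Topology IsDedekindDomain MeasureTheory
open Pool.Agent.W401.Cheb

/-- **8 CHEB** Chebotarev's theorem for closed sets, with the Haar measure. Proof: (compare
`Pool.Agent.R401.Eng.engine`, many steps can be copied.) For an open normal subgroup `N` let
`C_N = {σ | ∀ u ∈ N, σ u ∉ Good}`. By `Pool.Agent.Y142.chebK` the density of the places with Frobenius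
elements in `C_N` is `#(C_N / N) / [G : N] = μ (C_N)` (all cosets of `N` have measure `1 / [G : N]`), so
`μ (C_N) ≤ θ` (`le_of_tendsto_of_frequently`), and `μ (Good N) ≥ 1 - θ`. As `Good` is compact and the
open normal subgroups are a basis of neighbourhoods of `1`, every open set which contains `Good`
contains some `Good N`; `μ` is outer regular, so `μ Good ≥ 1 - θ`. Hence
`1 - θ ≤ μ Good = ∑_q μ (Good ∩ q) ≤ (number of the cosets q with μ (Good ∩ q) ≠ 0) / [G : U]`. -/
def S_CHEB : Prop :=
  ∀ (K : Type) [Field K] [NumberField K] [MeasurableSpace (GK K)] [BorelSpace (GK K)]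
    (μ : Measure (GK K)) [IsProbabilityMeasure μ] [μ.IsMulLeftInvariant] [μ.OuterRegular]
    (Good : Set (GK K)), IsClosed Good → (∀ g ∈ Good, ∀ x : GK K, x * g * x⁻¹ ∈ Good) →
    ∀ θ : ℝ, (∃ᶠ N : ℕ in atTop,
      dens (fun v : HeightOneSpectrum (𝓞 K) => ∃ g, IsFrob v g ∧ g ∉ Good) N ≤ θ) →
    ∀ U : Subgroup (GK K), U.Normal → IsOpen (U : Set (GK K)) →
      ({q : GK K ⧸ U | μ (Good ∩ {x : GK K | (x : GK K ⧸ U) = q}) = 0}.ncard : ℝ) ≤
        θ * Nat.card (GK K ⧸ U)

/-- **11 DEG1** Places of prime norm with Frobenius elements in an open normal subgroup. Proof: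
`Pool.Agent.Y142.chebK` (density `1 / [G : U] > 0`), and the places whose norm is not a prime number
have density zero (`Pool.Agent.W352.ChAbs.decomp` and `sqrt_div_pi`). -/
def S_DEG1 : Prop :=
  ∀ (K : Type) [Field K] [NumberField K] (U : Subgroup (GK K)), U.Normal →
    IsOpen (U : Set (GK K)) → ∀ S : Set (HeightOneSpectrum (𝓞 K)), S.Finite →
    ∃ v ∉ S, (Ideal.absNorm v.asIdeal).Prime ∧ ∃ γ ∈ U, IsFrob v γ

end Pool.Agent.D0H45.TH
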